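import Pool.Agent.Work.MP_65e34f.Basic

/-!
# MP_65e34f_al, block BDL: all bad cases
-/

namespace Pool.FG.helper28

open Matrix Pool.FG

lemma bad_eq {K : Type} [Field K] [Finite K] {W : Wd} {ds : List ℕ}
    (h : ∀ t ∈ Tup W ds (⊤ : Subgroup (SL K)), gn t ≠ ⊤) :
    (Tup W ds (⊤ : Subgroup (SL K))).ncard ≤ 1 * (Bad W ds K).ncard := by
  rw [one_mul]
  exact Set.ncard_le_ncard (fun t ht => ⟨ht, h t ht⟩) (Bad_finite W ds)

theorem stmt_BDL (hBTV : Stmt_BTV) (hBF2 : Stmt_BF2) (hBC1 : Stmt_BC1) (hBS2 : Stmt_BS2)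
    (hBZ4 : Stmt_BZ4) (hBDT : Stmt_BDT) : Stmt_BDL := by
  intro W ds hm
  cases W with
  | free r =>
    by_cases h1 : ds.length + r ≤ 1
    · exact ⟨1, 4, fun K _ _ hq _ _ => bad_eq (hBTV (.free r) ds K hq h1)⟩
    · by_cases h2 : r = 0 ∧ ds.length = 2 ∧ allEven ds
      · obtain ⟨rfl, h2, h3⟩ := h2
        obtain ⟨m1, m2, rfl⟩ := List.length_eq_two.mp h2
        obtain ⟨C, N, hC⟩ := hBF2 m1 m2 (hm _ (by simp)) (hm _ (by simp)) (h3 _ (by simp))
          (h3 _ (by simp))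
        exact ⟨C, N, fun K _ _ hq _ _ => hC K hq⟩
      · refine ⟨0, 0, fun K _ _ _ _ hcr => ?_⟩
        exact absurd ⟨by omega, h2⟩ hcr
  | zero =>
    by_cases h1 : ds.length ≤ 2
    · exact ⟨1, 4, fun K _ _ hq _ _ => bad_eq (hBTV .zero ds K hq h1)⟩
    · by_cases h2 : ds.length = 3
      · obtain ⟨m1, m2, m3, rfl⟩ := List.length_eq_three.mp h2
        obtain ⟨C, N, hC⟩ := hBDT m1 m2 m3 (hm _ (by simp)) (hm _ (by simp)) (hm _ (by simp))
        refine ⟨C, N, fun K _ _ hq hl hcr => hC K hq (hl _ (by simp)) (hl _ (by simp))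
          (hl _ (by simp)) fun ht => hcr (Or.inr (Or.inr ⟨m1, m2, m3, rfl, ht⟩))⟩
      · by_cases h3 : ds.length = 4 ∧ allEven ds
        · obtain ⟨h3, h4⟩ := h3
          obtain ⟨m1, ds', rfl⟩ : ∃ m1 ds', ds = m1 :: ds' := by
            cases ds with
            | nil => simp at h3
            | cons a b => exact ⟨a, b, rfl⟩
          obtain ⟨m2, m3, m4, rfl⟩ := List.length_eq_three.mp (by simpa using h3)
          obtain ⟨C, N, hC⟩ := hBZ4 m1 m2 m3 m4 (hm _ (by simp)) (hm _ (by simp)) (hm _ (by simp))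
            (hm _ (by simp)) (h4 _ (by simp)) (h4 _ (by simp)) (h4 _ (by simp)) (h4 _ (by simp))
          exact ⟨C, N, fun K _ _ hq _ _ => hC K hq⟩
        · refine ⟨0, 0, fun K _ _ _ _ hcr => ?_⟩
          exfalso
          apply hcr
          by_cases h5 : 5 ≤ ds.length
          · exact Or.inl h5
          · exact Or.inr (Or.inl ⟨by omega, fun h => h3 ⟨by omega, h⟩⟩)
  | comm =>
    by_cases h1 : ds.length = 0
    · exact ⟨1, 4, fun K _ _ hq _ _ => bad_eq (hBTV .comm ds K hq h1)⟩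
    · by_cases h2 : ds.length = 1
      · obtain ⟨m, rfl⟩ := List.length_eq_one_iff.mp h2
        obtain ⟨C, N, hC⟩ := hBC1 m (hm _ (by simp))
        refine ⟨C, N, fun K _ _ hq hl hcr => hC K hq ?_⟩
        by_contra hp
        exact hcr ⟨by simp, fun h => by
          obtain ⟨_, m', hm', hp'⟩ := h
          simp only [List.mem_singleton] at hm'
          subst hm'
          exact hp hp'⟩
      · refine ⟨0, 0, fun K _ _ _ _ hcr => ?_⟩
        exact absurd ⟨by omega, fun h => h2 h.1⟩ hcr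
  | sq =>
    by_cases h1 : ds.length ≤ 1
    · exact ⟨1, 4, fun K _ _ hq _ _ => bad_eq (hBTV .sq ds K hq h1)⟩
    · by_cases h2 : ds.length = 2 ∧ allEven ds
      · obtain ⟨h2, h3⟩ := h2
        obtain ⟨m1, m2, rfl⟩ := List.length_eq_two.mp h2
        obtain ⟨C, N, hC⟩ := hBS2 m1 m2 (hm _ (by simp)) (hm _ (by simp)) (h3 _ (by simp))
          (h3 _ (by simp))
        exact ⟨C, N, fun K _ _ hq _ _ => hC K hq⟩
      · refine ⟨0, 0, fun K _ _ _ _ hcr => ?_⟩
        exact absurd ⟨by omega, h2⟩ hcr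
  | sq2 =>
    by_cases h1 : ds.length = 0
    · exact ⟨1, 4, fun K _ _ hq _ _ => bad_eq (hBTV .sq2 ds K hq h1)⟩
    · refine ⟨0, 0, fun K _ _ _ _ hcr => ?_⟩
      exact absurd (show 1 ≤ ds.length by omega) hcr

end Pool.FG.helper28
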