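import Pool.Agent.Work.MP_65e34f.Basic

/-!
# MP_65e34f_al, block BDT: bad triangle case
-/

namespace Pool.FG.helper28

open Matrix Pool.FG

/-- permutations of three periods -/
lemma perm_cases (m1 m2 m3 : ℕ) :
    [m1, m2, m3].Perm [m2, m1, m3] ∧ [m1, m2, m3].Perm [m3, m1, m2] ∧
      [m1, m2, m3].Perm [m2, m3, m1] := by
  refine ⟨List.Perm.swap _ _ _, ?_, ?_⟩
  · have h1 : [m1, m2, m3].Perm [m1, m3, m2] := List.Perm.cons _ (List.Perm.swap _ _ _)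
    exact h1.trans (List.Perm.swap _ _ _)
  · have h1 : [m1, m2, m3].Perm [m2, m1, m3] := List.Perm.swap _ _ _
    exact h1.trans (List.Perm.cons _ (List.Perm.swap _ _ _))

theorem stmt_BDT (hUPZ : Stmt_UPZ) (hROS : Stmt_ROS) (hTEV : Stmt_TEV) (hTBO : Stmt_TBO)
    (hTIC : Stmt_TIC) (hTSU : Stmt_TSU) (hBND : Stmt_BND) (hPRM : Stmt_PRM) : Stmt_BDT := by
  intro m1 m2 m3 h1 h2 h3
  obtain ⟨C0, hC0⟩ := hUPZ [m1, m2, m3] (by simp) (by simp [h1, h2, h3])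
  obtain ⟨CE, NE, hE⟩ := hTEV
  obtain ⟨CB, NB, hB⟩ := hTBO
  obtain ⟨CI, NI, hI⟩ := hTIC
  obtain ⟨CS, NS, hS⟩ := hTSU
  obtain ⟨NN, hN⟩ := hBND m1 m2 m3 h1 h2 h3
  refine ⟨C0 * (CE + CB + CI + CS) + 1, NE + NB + NI + NS + NN, ?_⟩
  intro K _ _ hq l1 l2 l3 htri
  set T := (Tup .zero [m1, m2, m3] (⊤ : Subgroup (SL K))).ncard with hT
  set B := (Bad .zero [m1, m2, m3] K).ncard with hBdef
  by_cases hcop : Nat.Coprime (ringChar K) (6 * m1 * m2 * m3)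
  swap
  · have h := hN K (by omega) hcop
    have : T ≤ B := Set.ncard_le_ncard (fun t ht => ⟨ht, h t ht⟩) (Bad_finite _ _)
    calc T ≤ B := this
      _ ≤ (C0 * (CE + CB + CI + CS) + 1) * B := by
          nlinarith [Nat.zero_le (C0 * (CE + CB + CI + CS) * B)]
  -- it suffices to have many bad triples
  have hup : T ≤ C0 * Nat.card K ^ 3 := by
    have := hC0 K (⊤ : Subgroup (SL K)) (Nat.card K) (Nat.card_pos) trivial (hROS K)
    simpa [dimW] using this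
  have fin : ∀ C : ℕ, C ≤ CE + CB + CI + CS → Nat.card K ^ 3 ≤ C * B →
      T ≤ (C0 * (CE + CB + CI + CS) + 1) * B := by
    intro C hC h
    calc T ≤ C0 * Nat.card K ^ 3 := hup
      _ ≤ C0 * (C * B) := Nat.mul_le_mul_left _ h
      _ ≤ C0 * ((CE + CB + CI + CS) * B) := by gcongr
      _ ≤ (C0 * (CE + CB + CI + CS) + 1) * B := by ring_nf; omega
  obtain ⟨p1, p2, p3⟩ := perm_cases m1 m2 m3
  have b1 : (Bad .zero [m2, m1, m3] K).ncard = B := ((hPRM .zero _ _ K p1).2).symm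
  have b2 : (Bad .zero [m3, m1, m2] K).ncard = B := ((hPRM .zero _ _ K p2).2).symm
  have b3 : (Bad .zero [m2, m3, m1] K).ncard = B := ((hPRM .zero _ _ K p3).2).symm
  have c2 : Nat.Coprime (ringChar K) (6 * m2 * m1 * m3) := by
    have : 6 * m2 * m1 * m3 = 6 * m1 * m2 * m3 := by ring
    rwa [this]
  have c3 : Nat.Coprime (ringChar K) (6 * m3 * m1 * m2) := by
    have : 6 * m3 * m1 * m2 = 6 * m1 * m2 * m3 := by ring
    rwa [this]
  have hy1 : Hyp3 K m1 m2 m3 := ⟨h1, h2, h3, l1, l2, l3, hcop⟩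
  have hy2 : Hyp3 K m2 m1 m3 := ⟨h2, h1, h3, l2, l1, l3, c2⟩
  have hy3 : Hyp3 K m3 m1 m2 := ⟨h3, h1, h2, l3, l1, l2, c3⟩
  -- even periods
  by_cases e12 : Even m1 ∧ Even m2
  · have := hE K m3 m1 m2 (by omega) hy3 e12.1 e12.2
    unfold Many3 at this
    rw [b2] at this
    exact fin CE (by omega) this
  by_cases e13 : Even m1 ∧ Even m3
  · have := hE K m2 m1 m3 (by omega) hy2 e13.1 e13.2
    unfold Many3 at this
    rw [b1] at this
    exact fin CE (by omega) this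
  by_cases e23 : Even m2 ∧ Even m3
  · exact fin CE (by omega) (hE K m1 m2 m3 (by omega) hy1 e23.1 e23.2)
  -- A_4 and A_5
  by_cases hic : (¬ Nat.Coprime m1 6 ∧ ¬ Nat.Coprime m2 6 ∧ ¬ Nat.Coprime m3 6) ∨
    (5 ∣ Nat.card K ^ 2 - 1 ∧ ¬ Nat.Coprime m1 30 ∧ ¬ Nat.Coprime m2 30 ∧ ¬ Nat.Coprime m3 30)
  · exact fin CI (by omega) (hI K m1 m2 m3 (by omega) hy1 e12 e13 e23 hic)
  -- Borel
  by_cases g1 : Nat.gcd (Nat.gcd m1 m2) (Nat.card K - 1) ≠ 1 ∧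
      Nat.gcd (Nat.gcd m1 m3) (Nat.card K - 1) ≠ 1
  · exact fin CB (by omega) (hB K m1 m2 m3 (by omega) hy1 e12 e13 e23 g1.1 g1.2)
  by_cases g2 : Nat.gcd (Nat.gcd m1 m2) (Nat.card K - 1) ≠ 1 ∧
      Nat.gcd (Nat.gcd m2 m3) (Nat.card K - 1) ≠ 1
  · have := hB K m2 m1 m3 (by omega) hy2 (fun h => e12 ⟨h.2, h.1⟩) e23 e13
      (by rw [Nat.gcd_comm m2 m1]; exact g2.1) g2.2
    unfold Many3 at this
    rw [b1] at this
    exact fin CB (by omega) this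
  by_cases g3 : Nat.gcd (Nat.gcd m1 m3) (Nat.card K - 1) ≠ 1 ∧
      Nat.gcd (Nat.gcd m2 m3) (Nat.card K - 1) ≠ 1
  · have := hB K m3 m1 m2 (by omega) hy3 (fun h => e13 ⟨h.2, h.1⟩) (fun h => e23 ⟨h.2, h.1⟩) e12
      (by rw [Nat.gcd_comm m3 m1]; exact g3.1) (by rw [Nat.gcd_comm m3 m2]; exact g3.2)
    unfold Many3 at this
    rw [b2] at this
    exact fin CB (by omega) this
  -- subfields
  by_cases hs : ∃ τ1 ∈ Trs K m1, ∃ τ2 ∈ Trs K m2, ∃ τ3 ∈ Trs K m3, ∃ L : Subfield K,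
      τ1 ^ 2 ∈ L ∧ τ2 ^ 2 ∈ L ∧ τ3 ^ 2 ∈ L ∧ τ1 * τ2 * τ3 ∈ L ∧ L ≠ ⊤
  · exact fin CS (by omega) (hS K m1 m2 m3 (by omega) hy1 e12 e13 e23 hs)
  exfalso
  apply htri
  refine ⟨hcop, e12, e13, e23, ?_, ?_, ?_, ?_, ?_, ?_⟩
  · by_contra hcon
    simp only [not_or] at hcon
    exact hic (Or.inl hcon)
  · intro h5
    by_contra hcon
    simp only [not_or] at hcon
    exact hic (Or.inr ⟨h5, hcon⟩)
  · by_contra hcon
    simp only [not_or] at hcon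
    exact g1 hcon
  · by_contra hcon
    simp only [not_or] at hcon
    exact g2 hcon
  · by_contra hcon
    simp only [not_or] at hcon
    exact g3 hcon
  · intro τ1 t1 τ2 t2 τ3 t3 L a1 a2 a3 a4
    by_contra hL
    exact hs ⟨τ1, t1, τ2, t2, τ3, t3, L, a1, a2, a3, a4, hL⟩

end Pool.FG.helper28
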