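import Pool.Agent.Work.MP_65e34f.Basic

/-!
# MP_65e34f_al, block DIC: the subgroups of `SL_2(q)`
-/

namespace Pool.FG.helper28

open Matrix Pool.FG

theorem stmt_DIC (hD2 : Stmt_D2) (hD3b : Stmt_D3b) (hD4 : Stmt_D4) (hD5 : Stmt_D5) (hD6 : Stmt_D6) :
    Stmt_DIC := by
  intro K _ _ H h1 hne
  have hfix : FixP H → (∃ (v : Fin 2 → K) (hv : v ≠ 0), H ≤ Bor v hv) ∨
      (∃ y : M2 K, dsc y ≠ 0 ∧ H ≤ Nor y) := (hD5 K H h1).1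
  have hsma : Sma H → (∃ (v : Fin 2 → K) (hv : v ≠ 0), H ≤ Bor v hv) ∨
      (∃ y : M2 K, dsc y ≠ 0 ∧ H ≤ Nor y) ∨ (Sma H ∧ ∃ x ∈ H, ∃ y ∈ H, kp x y ≠ 2) := by
    intro hs
    by_cases hf : FixP H
    · rcases hfix hf with h | h
      · exact Or.inl h
      · exact Or.inr (Or.inl h)
    · exact Or.inr (Or.inr ⟨hs, hD6 K H hf⟩)
  have hpair : FixPair H → (∃ (v : Fin 2 → K) (hv : v ≠ 0), H ≤ Bor v hv) ∨
      (∃ y : M2 K, dsc y ≠ 0 ∧ H ≤ Nor y) ∨ (Sma H ∧ ∃ x ∈ H, ∃ y ∈ H, kp x y ≠ 2) := by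
    intro hp
    rcases (hD5 K H h1).2 hp with h | h | ⟨h, h4⟩
    · exact Or.inl h
    · exact Or.inr (Or.inl h)
    · exact hsma ⟨h.trans (by norm_num), Or.inl fun x hx => Or.inr (Or.inr (h4 x hx))⟩
  have fin3 : FixP H ∨ FixPair H ∨ Sma H → (∃ (v : Fin 2 → K) (hv : v ≠ 0), H ≤ Bor v hv) ∨
      (∃ y : M2 K, dsc y ≠ 0 ∧ H ≤ Nor y) ∨ (Sma H ∧ ∃ x ∈ H, ∃ y ∈ H, kp x y ≠ 2) := by
    rintro (h | h | h)
    · rcases hfix h with h | h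
      · exact Or.inl h
      · exact Or.inr (Or.inl h)
    · exact hpair h
    · exact hsma h
  have wrap : ((∃ (v : Fin 2 → K) (hv : v ≠ 0), H ≤ Bor v hv) ∨
      (∃ y : M2 K, dsc y ≠ 0 ∧ H ≤ Nor y) ∨ (Sma H ∧ ∃ x ∈ H, ∃ y ∈ H, kp x y ≠ 2)) →
      (∃ (v : Fin 2 → K) (hv : v ≠ 0), H ≤ Bor v hv) ∨
      (∃ y : M2 K, dsc y ≠ 0 ∧ H ≤ Nor y) ∨
      (Sma H ∧ ∃ x ∈ H, ∃ y ∈ H, kp x y ≠ 2) ∨
      (∃ L : Subfield K, L ≠ ⊤ ∧ ∃ g : GL (Fin 2) K, H ≤ HL L g) := by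
    rintro (h | h | h)
    · exact Or.inl h
    · exact Or.inr (Or.inl h)
    · exact Or.inr (Or.inr (Or.inl h))
  by_cases hpar : ∃ h ∈ H, Par h
  · rcases hD3b K H h1 hpar with h | h | h | h
    · exact wrap (fin3 (Or.inl h))
    · exact wrap (fin3 (Or.inr (Or.inl h)))
    · exact wrap (fin3 (Or.inr (Or.inr h)))
    · rcases hD4 K H h1 h with h | h
      · exact absurd h hne
      · exact Or.inr (Or.inr (Or.inr h))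
  · push Not at hpar
    exact wrap (fin3 (hD2 K H h1 hpar))

end Pool.FG.helper28
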