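import Pool.Agent.Work.MP_65e34f.Basic

/-!
# MP_65e34f_al, block FIN: the theorem from GOO, BAA, RDO, RDN
-/

namespace Pool.FG.helper28

open Matrix Pool.FG

/-- transport of `P_Γ` along an isomorphism -/
lemma PP_congr {Γ G G' : Type} [Group Γ] [Group G] [Group G'] (e : G ≃* G') :
    PP Γ G = PP Γ G' := by
  let E : (Γ →* G) ≃ (Γ →* G') :=
    { toFun := fun φ => e.toMonoidHom.comp φ
      invFun := fun φ => e.symm.toMonoidHom.comp φ
      left_inv := fun φ => by ext x; simp
      right_inv := fun φ => by ext x; simp }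
  have h1 : Nat.card (Γ →* G) = Nat.card (Γ →* G') := Nat.card_congr E
  have h2 : Nat.card {φ : Γ →* G // Function.Surjective φ} =
      Nat.card {φ : Γ →* G' // Function.Surjective φ} := by
    apply Nat.card_congr
    refine Equiv.subtypeEquiv E ?_
    intro φ
    have : (E φ : Γ → G') = e ∘ φ := rfl
    rw [this]
    constructor
    · intro h; exact e.surjective.comp h
    · intro h y
      obtain ⟨x, hx⟩ := h (e y)
      exact ⟨x, e.injective hx⟩
  unfold PP
  rw [h1, h2]

/-- isomorphic fields have isomorphic `PSL_2` -/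
lemma PSL_congr {K K' : Type} [Field K] [Field K'] (e : K ≃+* K') : Nonempty (PSL K ≃* PSL K') := by
  let f : SL K ≃* SL K' :=
    { toFun := Matrix.SpecialLinearGroup.map (e : K →+* K')
      invFun := Matrix.SpecialLinearGroup.map (e.symm : K' →+* K)
      left_inv := fun x => by ext i j; simp
      right_inv := fun x => by ext i j; simp
      map_mul' := fun x y => map_mul _ x y }
  have hc : (Subgroup.center (SL K)).map (f : SL K →* SL K') = Subgroup.center (SL K') := by
    ext y
    rw [Subgroup.mem_map, Subgroup.mem_center_iff]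
    constructor
    · rintro ⟨x, hx, rfl⟩ g
      rw [Subgroup.mem_center_iff] at hx
      obtain ⟨g', rfl⟩ := f.surjective g
      have := hx g'
      change f g' * f x = f x * f g'
      rw [← map_mul, ← map_mul, this]
    · intro hy
      obtain ⟨x, rfl⟩ := f.surjective y
      refine ⟨x, ?_, rfl⟩
      rw [Subgroup.mem_center_iff]
      intro g
      apply f.injective
      rw [map_mul, map_mul]
      exact hy (f g)
  exact ⟨QuotientGroup.congr _ _ f hc⟩

lemma PSL_congr_card {K K' : Type} [Field K] [Field K'] [Finite K] [Finite K']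
    (h : Nat.card K = Nat.card K') : Nonempty (PSL K ≃* PSL K') := by
  have := Fintype.ofFinite K
  have := Fintype.ofFinite K'
  rw [Nat.card_eq_fintype_card, Nat.card_eq_fintype_card] at h
  exact PSL_congr (FiniteField.ringEquivOfCardEq h)

lemma Tup_pos {K : Type} [Field K] [Finite K] (W : Wd) (ms : List ℕ) :
    0 < (Tup W ms (⊤ : Subgroup (SL K))).ncard := by
  rw [Set.ncard_pos (Tup_finite W ms ⊤)]
  refine ⟨(List.replicate ms.length 1, fun _ => 1), ?_, fun j => trivial, ?_⟩
  · induction ms with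
    | nil => simp
    | cons m ms ih =>
      simp only [List.length_cons, List.replicate_succ]
      exact cons_mem_Xs.mpr ⟨trivial, by simpa using Sc_one, ih⟩
  · have hp : (List.replicate ms.length (1 : SL K)).prod = 1 := by simp
    cases W <;> simp [Wd.rel, hp, cm, Sc_one]

lemma Bad_le_Tup {K : Type} [Field K] [Finite K] (W : Wd) (ms : List ℕ) :
    (Bad W ms K).ncard ≤ (Tup W ms (⊤ : Subgroup (SL K))).ncard :=
  Set.ncard_le_ncard (Bad_subset W ms) (Tup_finite W ms ⊤)

/-- the core argument -/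
lemma core (hG : Stmt_GOO) (hB : Stmt_BAA) {ι : Type} (K : ι → Type) [∀ i, Field (K i)]
    [∀ i, Finite (K i)] (hN : ∀ N : ℕ, {i | Nat.card (K i) < N}.Finite) (W : Wd) (ms : List ℕ)
    (hms : ∀ m ∈ ms, 1 ≤ m) (P : ι → ℝ)
    (hP : ∀ i, P i = 1 - ((Bad W ms (K i)).ncard : ℝ) /
      ((Tup W ms (⊤ : Subgroup (SL (K i)))).ncard : ℝ)) :
    (∀ ε : ℝ, 0 < ε → {i | ¬ (1 - ε < P i)}.Finite) ↔ {i | ¬ Crit (K i) W ms}.Finite := by
  constructor
  · intro h
    obtain ⟨C, N, hC⟩ := hB W ms hms
    have hε : (0 : ℝ) < 1 / ((C : ℝ) + 1) := by positivity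
    have h1 := h _ hε
    refine ((h1.union (hN N))).subset ?_
    intro i hi
    by_cases hq : N ≤ Nat.card (K i)
    · left
      simp only [Set.mem_ofPred_eq, not_lt]
      have h2 := hC (K i) hq hi
      rw [hP i]
      have hT : (0 : ℝ) < ((Tup W ms (⊤ : Subgroup (SL (K i)))).ncard : ℝ) := by
        exact_mod_cast Tup_pos W ms
      have h3 : ((Tup W ms (⊤ : Subgroup (SL (K i)))).ncard : ℝ) ≤ C * ((Bad W ms (K i)).ncard : ℝ) := by
        exact_mod_cast h2
      have h4 : (1 : ℝ) / (C + 1) ≤ ((Bad W ms (K i)).ncard : ℝ) /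
          ((Tup W ms (⊤ : Subgroup (SL (K i)))).ncard : ℝ) := by
        rw [div_le_div_iff₀ (by positivity) hT]
        have : (0 : ℝ) ≤ ((Bad W ms (K i)).ncard : ℝ) := by positivity
        nlinarith
      linarith
    · right
      exact not_le.mp hq
  · intro h ε hε
    obtain ⟨C, N, hC⟩ := hG W ms hms
    obtain ⟨M, hM⟩ := exists_nat_gt ((C : ℝ) / ε ^ 4)
    refine ((h.union (hN N)).union (hN (M + 1))).subset ?_
    intro i hi
    by_contra hcon
    simp only [Set.mem_union, Set.mem_ofPred_eq, not_or, not_lt, not_not] at hcon hi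
    obtain ⟨⟨hcr, hq⟩, hq2⟩ := hcon
    have h2 := hC (K i) hq hcr
    rw [hP i] at hi
    set B : ℝ := ((Bad W ms (K i)).ncard : ℝ) with hBdef
    set T : ℝ := ((Tup W ms (⊤ : Subgroup (SL (K i)))).ncard : ℝ) with hTdef
    have hT : 0 < T := by rw [hTdef]; exact_mod_cast Tup_pos W ms
    have hB0 : 0 ≤ B := by positivity
    have h3 : B ^ 4 * (Nat.card (K i) : ℝ) ≤ C * T ^ 4 := by
      rw [hBdef, hTdef]; exact_mod_cast h2
    have h4 : ε ≤ B / T := by linarith
    have h5 : ε * T ≤ B := by rwa [le_div_iff₀ hT] at h4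
    have h6 : (ε * T) ^ 4 ≤ B ^ 4 := pow_le_pow_left₀ (by positivity) h5 4
    have hq3 : (M : ℝ) < (Nat.card (K i) : ℝ) := by exact_mod_cast hq2
    have h7 : (C : ℝ) < ε ^ 4 * (Nat.card (K i) : ℝ) := by
      have : (C : ℝ) / ε ^ 4 < (Nat.card (K i) : ℝ) := hM.trans hq3
      rw [div_lt_iff₀ (by positivity)] at this
      linarith
    have h8 : C * T ^ 4 < ε ^ 4 * (Nat.card (K i) : ℝ) * T ^ 4 :=
      mul_lt_mul_of_pos_right h7 (by positivity)
    have h9 : (ε * T) ^ 4 * (Nat.card (K i) : ℝ) ≤ B ^ 4 * (Nat.card (K i) : ℝ) :=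
      mul_le_mul_of_nonneg_right h6 (by positivity)
    have h10 : (ε * T) ^ 4 * (Nat.card (K i) : ℝ) = ε ^ 4 * (Nat.card (K i) : ℝ) * T ^ 4 := by ring
    linarith

theorem stmt_FIN (hG : Stmt_GOO) (hB : Stmt_BAA) (hO : Stmt_RDO) (hNn : Stmt_RDN) : Stmt_FIN := by
  intro ι G _ K _ _ h4 hiso hne
  have hinj : Function.Injective (fun i => Nat.card (K i)) := by
    intro i j hij
    by_contra hne'
    obtain ⟨e⟩ := PSL_congr_card hij
    obtain ⟨ei⟩ := hiso i
    obtain ⟨ej⟩ := hiso j
    exact (hne i j hne').false ((ei.trans e).trans ej.symm)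
  have hN : ∀ N : ℕ, {i | Nat.card (K i) < N}.Finite := by
    intro N
    exact (Set.finite_Iio N).preimage (hinj.injOn)
  refine ⟨?_, ?_⟩
  · intro g d s m hm hg
    refine core hG hB K hN (wdO g s) (List.ofFn m) ?_ (fun i => PP (FuchsO g d s m) (G i)) ?_
    · intro x hx
      rw [List.mem_ofFn] at hx
      obtain ⟨j, rfl⟩ := hx
      exact le_trans (by norm_num) (hm j)
    · intro i
      obtain ⟨e⟩ := hiso i
      change PP (FuchsO g d s m) (G i) = _
      rw [PP_congr e]
      exact hO g d s m (K i) hg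
  · intro g d s m hm hg1 hg2
    refine core hG hB K hN (wdN g s) (List.ofFn m) ?_ (fun i => PP (FuchsN g d s m) (G i)) ?_
    · intro x hx
      rw [List.mem_ofFn] at hx
      obtain ⟨j, rfl⟩ := hx
      exact le_trans (by norm_num) (hm j)
    · intro i
      obtain ⟨e⟩ := hiso i
      change PP (FuchsN g d s m) (G i) = _
      rw [PP_congr e]
      exact hNn g d s m (K i) hg1 hg2

end Pool.FG.helper28
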