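import Pool.Agent.Work.MP_65e34f.Basic

/-!
# MP_65e34f_al, block FLT: dead periods do not matter
-/

namespace Pool.FG.helper28

open Matrix Pool.FG

section
variable {K : Type} [Field K]

/-- closure of the entries of a list and `-1` -/
def cl1 (xs : List (SL K)) : Subgroup (SL K) := Subgroup.closure ({x | x ∈ xs} ∪ {-1})

lemma cl1_cons (x : SL K) (xs : List (SL K)) : cl1 (x :: xs) = Subgroup.closure {x} ⊔ cl1 xs := by
  unfold cl1
  rw [← Subgroup.closure_union]
  congr 1
  ext y; simp [or_assoc]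

lemma neg_one_mem_cl1 (xs : List (SL K)) : (-1 : SL K) ∈ cl1 xs :=
  Subgroup.subset_closure (by simp)

lemma cl1_cons_sc {x : SL K} (hx : Sc x) (xs : List (SL K)) : cl1 (x :: xs) = cl1 xs := by
  rw [cl1_cons, sup_eq_right, Subgroup.closure_le]
  intro y hy
  rw [Set.mem_singleton_iff] at hy
  subst hy
  exact sc_mem (neg_one_mem_cl1 xs) hx

/-- the counted sets -/
def NN (A : Type) (ms : List ℕ) (R : A → SL K → Subgroup (SL K) → Prop) : Set (List (SL K) × A) :=
  {t | t.1 ∈ Xs ms (⊤ : Subgroup (SL K)) ∧ R t.2 t.1.prod (cl1 t.1)}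

variable [Finite K]

/-- moving the first element into the parameter -/
lemma NN_cons (A : Type) (m : ℕ) (ms : List ℕ) (R : A → SL K → Subgroup (SL K) → Prop) :
    (NN A (m :: ms) R).ncard =
      (NN ({x : SL K // Sc (x ^ m)} × A) ms
        (fun a p H => R a.2 (a.1.1 * p) (Subgroup.closure {a.1.1} ⊔ H))).ncard := by
  symm
  set f : List (SL K) × ({x : SL K // Sc (x ^ m)} × A) → List (SL K) × A :=
    fun t => (t.2.1.1 :: t.1, t.2.2) with hf
  have hinj : Function.Injective f := by
    rintro ⟨xs, ⟨x, hx⟩, a⟩ ⟨ys, ⟨y, hy⟩, b⟩ h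
    simp only [f, Prod.mk.injEq, List.cons.injEq] at h
    obtain ⟨⟨rfl, rfl⟩, rfl⟩ := h
    rfl
  have himg : f '' (NN ({x : SL K // Sc (x ^ m)} × A) ms
        (fun a p H => R a.2 (a.1.1 * p) (Subgroup.closure {a.1.1} ⊔ H))) = NN A (m :: ms) R := by
    ext ⟨l, a⟩
    constructor
    · rintro ⟨⟨xs, ⟨x, hx⟩, a'⟩, ⟨h1, h2⟩, h3⟩
      simp only [f, Prod.mk.injEq] at h3
      obtain ⟨rfl, rfl⟩ := h3
      refine ⟨cons_mem_Xs.mpr ⟨trivial, hx, h1⟩, ?_⟩
      simp only [List.prod_cons, cl1_cons]
      exact h2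
    · rintro ⟨h1, h2⟩
      obtain ⟨x, xs, rfl, -, hx, hxs⟩ := mem_Xs_cons.mp h1
      refine ⟨⟨xs, ⟨x, hx⟩, a⟩, ⟨hxs, ?_⟩, rfl⟩
      simp only [List.prod_cons, cl1_cons] at h2
      exact h2
  rw [← himg, Set.ncard_image_of_injective _ hinj]

/-- the main induction -/
lemma main (z : ℕ) (hz : z = Nat.card {x : SL K // Sc x}) (ms : List ℕ)
    (hdead : ∀ m ∈ ms, Nat.Coprime m (Nat.card K * (Nat.card K ^ 2 - 1)) →
      ∀ x : SL K, Sc (x ^ m) → Sc x) :
    ∀ (A : Type) [Finite A] (R : A → SL K → Subgroup (SL K) → Prop),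
      (∀ a p H, R a (-p) H ↔ R a p H) →
      (NN A ms R).ncard = z ^ (ms.length - (live (Nat.card K) ms).length) *
        (NN A (live (Nat.card K) ms) R).ncard := by
  induction ms with
  | nil => intro A _ R _; simp [live]
  | cons m ms ih =>
    intro A _ R hR
    have ih' := ih (fun m' hm' => hdead m' (List.mem_cons_of_mem _ hm'))
    have hle : (live (Nat.card K) ms).length ≤ ms.length := List.length_filter_le _ _
    by_cases hc : Nat.Coprime m (Nat.card K * (Nat.card K ^ 2 - 1))
    · have hl : live (Nat.card K) (m :: ms) = live (Nat.card K) ms := by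
        unfold live
        rw [List.filter_cons_of_neg]
        simpa using hc
      have hm := hdead m (by simp) hc
      rw [hl]
      -- the fibres over the first element
      have h1 : (NN A (m :: ms) R).ncard = z * (NN A ms R).ncard := by
        have himg : NN A (m :: ms) R =
            (fun w : SL K × (List (SL K) × A) => (w.1 :: w.2.1, w.2.2)) ''
              ({x : SL K | Sc x} ×ˢ NN A ms R) := by
          ext ⟨l, a⟩
          constructor
          · rintro ⟨h1, h2⟩
            obtain ⟨x, xs, rfl, -, hx, hxs⟩ := mem_Xs_cons.mp h1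
            have hx' := hm x hx
            refine ⟨(x, (xs, a)), ⟨hx', hxs, ?_⟩, rfl⟩
            simp only [List.prod_cons, cl1_cons_sc hx'] at h2
            rcases hx' with rfl | rfl
            · simpa using h2
            · rw [neg_one_mul, hR] at h2
              exact h2
          · rintro ⟨⟨x, xs, a'⟩, ⟨hx, h1, h2⟩, h3⟩
            simp only [Prod.mk.injEq] at h3
            obtain ⟨rfl, rfl⟩ := h3
            have hx : Sc x := hx
            refine ⟨cons_mem_Xs.mpr ⟨trivial, hx.pow m, h1⟩, ?_⟩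
            simp only [List.prod_cons, cl1_cons_sc hx]
            rcases hx with rfl | rfl
            · simpa using h2
            · rw [neg_one_mul, hR]
              exact h2
        rw [himg, Set.ncard_image_of_injOn, Set.ncard_prod]
        · rw [hz]
          rfl
        · rintro ⟨x, xs, a⟩ _ ⟨y, ys, b⟩ _ h
          simp only [Prod.mk.injEq, List.cons.injEq] at h
          obtain ⟨⟨rfl, rfl⟩, rfl⟩ := h
          rfl
      rw [h1, ih' A R hR, ← mul_assoc, ← pow_succ', List.length_cons]
      congr 2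
      omega
    · have hl : live (Nat.card K) (m :: ms) = m :: live (Nat.card K) ms := by
        unfold live
        rw [List.filter_cons_of_pos]
        simpa using hc
      rw [hl, NN_cons, NN_cons, ih']
      · congr 2
        simp only [List.length_cons]
        omega
      · intro a p H
        rw [mul_neg, hR]

end

theorem stmt_FLT (hLIV : Stmt_LIV) : Stmt_FLT := by
  intro W ms K _ _ hm
  set z := Nat.card {x : SL K // Sc x} with hz
  have hz0 : 0 < z := by
    rw [hz]
    have : Nonempty {x : SL K // Sc x} := ⟨⟨1, Sc_one⟩⟩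
    exact Nat.card_pos
  have hdead : ∀ m ∈ ms, Nat.Coprime m (Nat.card K * (Nat.card K ^ 2 - 1)) →
      ∀ x : SL K, Sc (x ^ m) → Sc x := by
    intro m h hc x hx
    by_contra hns
    exact ((hLIV K m (hm m h)).mp ⟨x, hns, hx⟩) hc
  -- the relation
  set R1 : (Fin W.n → SL K) → SL K → Subgroup (SL K) → Prop := fun w p _ => W.rel [p] w with hR1
  set R2 : (Fin W.n → SL K) → SL K → Subgroup (SL K) → Prop :=
    fun w p H => W.rel [p] w ∧ H ⊔ Subgroup.closure (Set.range w) ≠ ⊤ with hR2
  have hneg : ∀ (w : Fin W.n → SL K) (p : SL K), W.rel [-p] w ↔ W.rel [p] w := by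
    intro w p
    cases W <;> simp [Wd.rel, neg_mul, Sc_neg_iff]
  have h1 : ∀ l : List ℕ, Tup W l (⊤ : Subgroup (SL K)) = NN (Fin W.n → SL K) l R1 := by
    intro l
    ext ⟨xs, w⟩
    have : W.rel xs w ↔ W.rel [xs.prod] w := by cases W <;> simp [Wd.rel]
    constructor
    · rintro ⟨a, b, c⟩; exact ⟨a, this.mp c⟩
    · rintro ⟨a, c⟩; exact ⟨a, fun _ => trivial, this.mpr c⟩
  have h2 : ∀ l : List ℕ, Bad W l K = NN (Fin W.n → SL K) l R2 := by
    intro l
    ext ⟨xs, w⟩
    have h3 : W.rel xs w ↔ W.rel [xs.prod] w := by cases W <;> simp [Wd.rel]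
    have h4 : gn (xs, w) = cl1 xs ⊔ Subgroup.closure (Set.range w) := by
      rw [gn, cl1, ← Subgroup.closure_union]
      congr 1
      ext y; simp only [Set.mem_union]; tauto
    constructor
    · rintro ⟨⟨a, b, c⟩, d⟩
      refine ⟨a, h3.mp c, ?_⟩
      rwa [h4] at d
    · rintro ⟨a, c, d⟩
      refine ⟨⟨a, fun _ => trivial, h3.mpr c⟩, ?_⟩
      rw [h4]; exact d
  refine ⟨z ^ (ms.length - (live (Nat.card K) ms).length), pow_pos hz0 _, ?_, ?_⟩
  · rw [h1, h1]
    exact main z hz ms hdead _ R1 (fun w p _ => hneg w p)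
  · rw [h2, h2]
    exact main z hz ms hdead _ R2 (fun w p H => by simp only [hR2]; rw [hneg w p])

end Pool.FG.helper28
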