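import Pool.Agent.Work.MP_65e34f.Basic

/-!
# MP_65e34f_al, block GDT: the good triangle case
-/

namespace Pool.FG.helper28

open Matrix Pool.FG

theorem stmt_GDT (hTLO : Stmt_TLO) (hTGO : Stmt_TGO) : Stmt_GDT := by
  intro ds hlen hm
  obtain ⟨m1, m2, m3, rfl⟩ := List.length_eq_three.mp hlen
  have h1 : 1 ≤ m1 := hm m1 (by simp)
  have h2 : 1 ≤ m2 := hm m2 (by simp)
  have h3 : 1 ≤ m3 := hm m3 (by simp)
  obtain ⟨C, hC⟩ := hTGO m1 m2 m3 h1 h2 h3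
  obtain ⟨C', N, hC'⟩ := hTLO
  refine ⟨C ^ 4 * C' ^ 4, N, ?_⟩
  intro K _ _ hq hliv hcr
  have htri : Tri K m1 m2 m3 := by
    rcases hcr with h | ⟨h, _⟩ | ⟨a1, a2, a3, h, ht⟩
    · simp at h
    · simp at h
    · simp only [List.cons.injEq, and_true] at h
      obtain ⟨rfl, rfl, rfl⟩ := h
      exact ht
  have hb := hC K htri
  have hl := hC' K m1 m2 m3 hq h1 h2 h3 (hliv m1 (by simp)) (hliv m2 (by simp)) (hliv m3 (by simp))
    htri.1 htri.2.1 htri.2.2.1 htri.2.2.2.1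
  have hq1 : 1 ≤ Nat.card K := by have := two_le_card (K := K); omega
  calc (Bad .zero [m1, m2, m3] K).ncard ^ 4 * Nat.card K
      ≤ (C * Nat.card K ^ 2) ^ 4 * Nat.card K := Nat.mul_le_mul_right _ (Nat.pow_le_pow_left hb 4)
    _ = C ^ 4 * Nat.card K ^ 9 := by ring
    _ ≤ C ^ 4 * Nat.card K ^ 12 := Nat.mul_le_mul_left _ (Nat.pow_le_pow_right hq1 (by norm_num))
    _ = C ^ 4 * (Nat.card K ^ 3) ^ 4 := by ring
    _ ≤ C ^ 4 * (C' * (Tup .zero [m1, m2, m3] (⊤ : Subgroup (SL K))).ncard) ^ 4 := by gcongr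
    _ = _ := by ring

end Pool.FG.helper28
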