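import Pool.Agent.Work.MP_65e34f.Basic

/-!
# MP_65e34f_al, blocks GOO and BAA: from live periods to all periods
-/

namespace Pool.FG.helper28

open Matrix Pool.FG

lemma live_liv (hLIV : Stmt_LIV) {K : Type} [Field K] [Finite K] {ms : List ℕ}
    (hm : ∀ m ∈ ms, 1 ≤ m) : ∀ m ∈ live (Nat.card K) ms, Liv K m := by
  intro m h
  unfold live at h
  rw [List.mem_filter] at h
  exact (hLIV K m (hm m h.1)).mpr (by simpa using h.2)

lemma live_sub (q : ℕ) (ms : List ℕ) : (live q ms).Sublist ms := List.filter_sublist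

lemma le_sum_map {l : List ℕ} {L : List (List ℕ)} (f : List ℕ → ℕ) (h : l ∈ L) :
    f l ≤ (L.map f).sum := List.single_le_sum (by simp) _ (List.mem_map_of_mem h)

theorem stmt_GOO (hGDN : Stmt_GDN) (hGDT : Stmt_GDT) (hFLT : Stmt_FLT) (hLIV : Stmt_LIV) :
    Stmt_GOO := by
  intro W ms hm
  have key : ∀ l : List ℕ, ∃ C N : ℕ, l.Sublist ms → ∀ (K : Type) [Field K] [Finite K],
      N ≤ Nat.card K → (∀ m ∈ l, Liv K m) → CritL K W l →
      (Bad W l K).ncard ^ 4 * Nat.card K ≤ C * (Tup W l (⊤ : Subgroup (SL K))).ncard ^ 4 := by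
    intro l
    by_cases hl : l.Sublist ms
    · have hm' : ∀ m ∈ l, 1 ≤ m := fun m h => hm m (hl.subset h)
      by_cases h3 : W = .zero ∧ l.length = 3
      · obtain ⟨rfl, h3⟩ := h3
        obtain ⟨C, N, h⟩ := hGDT l h3 hm'
        exact ⟨C, N, fun _ => h⟩
      · obtain ⟨C, N, h⟩ := hGDN W l (fun h1 h2 => h3 ⟨h1, h2⟩) hm'
        exact ⟨C, N, fun _ => h⟩
    · exact ⟨0, 0, fun h => absurd h hl⟩
  choose Cf Nf hf using key
  refine ⟨(ms.sublists.map Cf).sum, (ms.sublists.map Nf).sum, ?_⟩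
  intro K _ _ hq hcr
  set l := live (Nat.card K) ms with hl
  have hsub : l.Sublist ms := live_sub _ _
  have hmem : l ∈ ms.sublists := List.mem_sublists.mpr hsub
  have h1 := hf l hsub K ((le_sum_map Nf hmem).trans hq) (live_liv hLIV hm) hcr
  obtain ⟨c, hc, hT, hB⟩ := hFLT W ms K hm
  rw [hT, hB]
  calc (c * (Bad W l K).ncard) ^ 4 * Nat.card K
      = c ^ 4 * ((Bad W l K).ncard ^ 4 * Nat.card K) := by ring
    _ ≤ c ^ 4 * (Cf l * (Tup W l (⊤ : Subgroup (SL K))).ncard ^ 4) := Nat.mul_le_mul_left _ h1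
    _ ≤ c ^ 4 * ((ms.sublists.map Cf).sum * (Tup W l (⊤ : Subgroup (SL K))).ncard ^ 4) := by
        gcongr
        exact le_sum_map Cf hmem
    _ = _ := by ring

theorem stmt_BAA (hBDL : Stmt_BDL) (hFLT : Stmt_FLT) (hLIV : Stmt_LIV) : Stmt_BAA := by
  intro W ms hm
  have key : ∀ l : List ℕ, ∃ C N : ℕ, l.Sublist ms → ∀ (K : Type) [Field K] [Finite K],
      N ≤ Nat.card K → (∀ m ∈ l, Liv K m) → ¬ CritL K W l →
      (Tup W l (⊤ : Subgroup (SL K))).ncard ≤ C * (Bad W l K).ncard := by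
    intro l
    by_cases hl : l.Sublist ms
    · have hm' : ∀ m ∈ l, 1 ≤ m := fun m h => hm m (hl.subset h)
      obtain ⟨C, N, h⟩ := hBDL W l hm'
      exact ⟨C, N, fun _ => h⟩
    · exact ⟨0, 0, fun h => absurd h hl⟩
  choose Cf Nf hf using key
  refine ⟨(ms.sublists.map Cf).sum, (ms.sublists.map Nf).sum, ?_⟩
  intro K _ _ hq hcr
  set l := live (Nat.card K) ms with hl
  have hsub : l.Sublist ms := live_sub _ _
  have hmem : l ∈ ms.sublists := List.mem_sublists.mpr hsub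
  have h1 := hf l hsub K ((le_sum_map Nf hmem).trans hq) (live_liv hLIV hm) hcr
  obtain ⟨c, hc, hT, hB⟩ := hFLT W ms K hm
  rw [hT, hB]
  calc c * (Tup W l (⊤ : Subgroup (SL K))).ncard ≤ c * (Cf l * (Bad W l K).ncard) :=
        Nat.mul_le_mul_left _ h1
    _ ≤ c * ((ms.sublists.map Cf).sum * (Bad W l K).ncard) := by
        gcongr
        exact le_sum_map Cf hmem
    _ = _ := by ring

end Pool.FG.helper28
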