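import Pool.Agent.Work.MP_65e34f_helper28.FIN

/-!
# MP_65e34f_al: the gap theorem (bounds for `1 - P_Γ(PSL_2(q))`) from GOO, BAA, RDO, RDN
-/

namespace Pool.FG.helper28

open Matrix Pool.FG

lemma gap_core (hG : Stmt_GOO) (hB : Stmt_BAA) (W : Wd) (ms : List ℕ) (hms : ∀ m ∈ ms, 1 ≤ m) :
    ∃ C N : ℕ, ∀ (K : Type) [Field K] [Finite K], N ≤ Nat.card K →
      ∀ P : ℝ, P = 1 - ((Bad W ms K).ncard : ℝ) / ((Tup W ms (⊤ : Subgroup (SL K))).ncard : ℝ) →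
      (Crit K W ms → (1 - P) ^ 4 * (Nat.card K : ℝ) ≤ C) ∧
      (¬ Crit K W ms → 1 ≤ (C : ℝ) * (1 - P)) := by
  obtain ⟨C1, N1, h1⟩ := hG W ms hms
  obtain ⟨C2, N2, h2⟩ := hB W ms hms
  refine ⟨C1 + C2, N1 + N2, ?_⟩
  intro K _ _ hq P hP
  have hT : (0 : ℝ) < ((Tup W ms (⊤ : Subgroup (SL K))).ncard : ℝ) := by
    exact_mod_cast Tup_pos W ms
  have hB0 : (0 : ℝ) ≤ ((Bad W ms K).ncard : ℝ) := by positivity
  have hP' : 1 - P = ((Bad W ms K).ncard : ℝ) / ((Tup W ms (⊤ : Subgroup (SL K))).ncard : ℝ) := by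
    rw [hP]; ring
  have hx0 : (0 : ℝ) ≤ ((Bad W ms K).ncard : ℝ) / ((Tup W ms (⊤ : Subgroup (SL K))).ncard : ℝ) := by
    positivity
  refine ⟨fun hc => ?_, fun hc => ?_⟩
  · have h3 : ((Bad W ms K).ncard : ℝ) ^ 4 * (Nat.card K : ℝ) ≤
        C1 * ((Tup W ms (⊤ : Subgroup (SL K))).ncard : ℝ) ^ 4 := by
      exact_mod_cast h1 K (by omega) hc
    have hC2 : (0 : ℝ) ≤ (C2 : ℝ) := by positivity
    rw [hP', div_pow, div_mul_eq_mul_div, div_le_iff₀ (by positivity)]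
    push_cast
    have hT4 : (0 : ℝ) ≤ ((Tup W ms (⊤ : Subgroup (SL K))).ncard : ℝ) ^ 4 := by positivity
    nlinarith
  · have h3 : ((Tup W ms (⊤ : Subgroup (SL K))).ncard : ℝ) ≤ C2 * ((Bad W ms K).ncard : ℝ) := by
      exact_mod_cast h2 K (by omega) hc
    have hC1 : (0 : ℝ) ≤ (C1 : ℝ) := by positivity
    rw [hP']
    push_cast
    have h4 : (1 : ℝ) ≤ C2 * (((Bad W ms K).ncard : ℝ) / ((Tup W ms (⊤ : Subgroup (SL K))).ncard : ℝ)) := by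
      rw [← mul_div_assoc, le_div_iff₀ hT]
      linarith
    nlinarith

theorem gap (hG : Stmt_GOO) (hB : Stmt_BAA) (hO : Stmt_RDO) (hNn : Stmt_RDN) :
    (∀ (g d s : ℕ) (m : Fin d → ℕ), (∀ i, 2 ≤ m i) → g ≤ 1 →
      ∃ C N : ℕ, ∀ (K : Type) [Field K] [Finite K], N ≤ Nat.card K →
        (Crit K (wdO g s) (List.ofFn m) →
          (1 - PP (FuchsO g d s m) (PSL K)) ^ 4 * (Nat.card K : ℝ) ≤ C) ∧
        (¬ Crit K (wdO g s) (List.ofFn m) → 1 ≤ (C : ℝ) * (1 - PP (FuchsO g d s m) (PSL K)))) ∧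
    (∀ (g d s : ℕ) (m : Fin d → ℕ), (∀ i, 2 ≤ m i) → 1 ≤ g → g ≤ 2 →
      ∃ C N : ℕ, ∀ (K : Type) [Field K] [Finite K], N ≤ Nat.card K →
        (Crit K (wdN g s) (List.ofFn m) →
          (1 - PP (FuchsN g d s m) (PSL K)) ^ 4 * (Nat.card K : ℝ) ≤ C) ∧
        (¬ Crit K (wdN g s) (List.ofFn m) → 1 ≤ (C : ℝ) * (1 - PP (FuchsN g d s m) (PSL K)))) := by
  have hl : ∀ (d : ℕ) (m : Fin d → ℕ), (∀ i, 2 ≤ m i) → ∀ x ∈ List.ofFn m, 1 ≤ x := by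
    intro d m hm x hx
    rw [List.mem_ofFn] at hx
    obtain ⟨j, rfl⟩ := hx
    exact le_trans (by norm_num) (hm j)
  refine ⟨?_, ?_⟩
  · intro g d s m hm hg
    obtain ⟨C, N, h⟩ := gap_core hG hB (wdO g s) (List.ofFn m) (hl d m hm)
    exact ⟨C, N, fun K _ _ hq => h K hq _ (hO g d s m K hg)⟩
  · intro g d s m hm hg1 hg2
    obtain ⟨C, N, h⟩ := gap_core hG hB (wdN g s) (List.ofFn m) (hl d m hm)
    exact ⟨C, N, fun K _ _ hq => h K hq _ (hNn g d s m K hg1 hg2)⟩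

end Pool.FG.helper28
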