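import Pool.Agent.Work.MP_65e34f.Basic

/-!
# MP_65e34f_al, block LWT: lower bound for `sq2`
-/

namespace Pool.FG.helper28

open Matrix Pool.FG

theorem stmt_LWT (hSQT : Stmt_SQT) (hPRO : Stmt_PRO) : Stmt_LWT := by
  intro ds hm
  by_cases hd : ds = []
  · subst hd
    refine ⟨0, 0, fun K _ _ _ _ h => ?_⟩
    have h : 1 ≤ ([] : List ℕ).length := h
    simp at h
  obtain ⟨C1, N1, h1⟩ := hPRO ds hd hm
  obtain ⟨C2, N2, h2⟩ := hSQT
  refine ⟨C1 * C2, N1 + N2, ?_⟩
  intro K _ _ hq hl _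
  have h1' := h1 K (by omega) hl
  set s : Set (List (SL K)) := {xs | xs ∈ Xs ds (⊤ : Subgroup (SL K)) ∧ ¬ Sc xs.prod} with hs
  have hsfin : s.Finite := (Xs_finite ds ⊤).subset (fun xs h => h.1)
  by_cases hC2 : C2 = 0
  · exfalso
    -- then there would be no nonscalar element
    have : s.ncard = 0 := by
      by_contra hne
      obtain ⟨xs, hxs⟩ := Set.nonempty_of_ncard_ne_zero hne
      have := h2 K (by omega) xs.prod hxs.2
      rw [hC2, zero_mul] at this
      have hq0 : 0 < Nat.card K := Nat.card_pos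
      have : 0 < Nat.card K ^ 3 := by positivity
      omega
    rw [this, mul_zero] at h1'
    have hq0 : 0 < Nat.card K := Nat.card_pos
    have : 0 < Nat.card K ^ (2 * ds.length) := by positivity
    omega
  -- for each list the fibre
  set T : List (SL K) → Set (Fin 2 → SL K) := fun xs =>
    {w | xs.prod * ((w 0) ^ 2 * (w 1) ^ 2) = 1} with hT
  have hTB : ∀ xs ∈ s, Nat.card K ^ 3 ≤ C2 * (T xs).ncard := by
    intro xs hxs
    have h3 := h2 K (by omega) (xs.prod)⁻¹ (by rw [Sc_inv_iff]; exact hxs.2)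
    refine h3.trans (Nat.mul_le_mul_left _ ?_)
    have : T xs = (fun w : SL K × SL K => (![w.1, w.2] : Fin 2 → SL K)) ''
        {w : SL K × SL K | w.1 ^ 2 * w.2 ^ 2 = (xs.prod)⁻¹} := by
      ext w
      constructor
      · intro hw
        refine ⟨(w 0, w 1), ?_, ?_⟩
        · have hw : xs.prod * ((w 0) ^ 2 * (w 1) ^ 2) = 1 := hw
          exact (inv_eq_of_mul_eq_one_right hw).symm
        · ext i
          fin_cases i <;> rfl
      · rintro ⟨⟨a, b⟩, hab, rfl⟩
        have hab : a ^ 2 * b ^ 2 = (xs.prod)⁻¹ := hab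
        change xs.prod * (a ^ 2 * b ^ 2) = 1
        rw [hab, mul_inv_cancel]
    rw [this, Set.ncard_image_of_injective]
    rintro ⟨a, b⟩ ⟨c, d⟩ h
    have h0 := congrFun h 0
    have h1 := congrFun h 1
    simp at h0 h1
    rw [h0, h1]
  -- divide
  set B := (Nat.card K ^ 3 + C2 - 1) / C2 with hB
  have hB1 : ∀ xs ∈ s, B ≤ (T xs).ncard := by
    intro xs hxs
    have := hTB xs hxs
    rw [hB]
    have hC2' : 0 < C2 := Nat.pos_of_ne_zero hC2
    rw [Nat.div_le_iff_le_mul_add_pred hC2']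
    omega
  have hB2 : Nat.card K ^ 3 ≤ C2 * B := by
    rw [hB]
    have hC2' : 0 < C2 := Nat.pos_of_ne_zero hC2
    have := Nat.div_add_mod (Nat.card K ^ 3 + C2 - 1) C2
    have := Nat.mod_lt (Nat.card K ^ 3 + C2 - 1) hC2'
    omega
  have hprod := le_ncard_prod hsfin T (fun _ _ => Set.toFinite _) B hB1
  have hsub : {w : List (SL K) × (Fin 2 → SL K) | w.1 ∈ s ∧ w.2 ∈ T w.1} ⊆
      Tup .sq2 ds (⊤ : Subgroup (SL K)) := by
    rintro ⟨xs, w⟩ ⟨hx, hw⟩
    exact ⟨hx.1, fun _ => trivial, Or.inl hw⟩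
  have hle := hprod.trans (Set.ncard_le_ncard hsub (Tup_finite .sq2 ds ⊤))
  calc Nat.card K ^ dimW .sq2 ds.length = Nat.card K ^ (2 * ds.length) * Nat.card K ^ 3 := by
        rw [← pow_add]; rfl
    _ ≤ (C1 * s.ncard) * (C2 * B) := Nat.mul_le_mul h1' hB2
    _ = C1 * C2 * (s.ncard * B) := by ring
    _ ≤ C1 * C2 * (Tup .sq2 ds (⊤ : Subgroup (SL K))).ncard := Nat.mul_le_mul_left _ hle

end Pool.FG.helper28
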