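import Pool.Agent.Work.MP_65e34f.Basic

/-!
# MP_65e34f_al, block PRM: permuting the periods
-/

namespace Pool.FG.helper28

open Matrix Pool.FG

/-- a bijection between the lists for `ds` and for `es` preserving product and generated subgroup -/
def Br {K : Type} [Field K] (ds es : List ℕ) (e : List (SL K) → List (SL K)) : Prop :=
  Set.BijOn e (Xs ds (⊤ : Subgroup (SL K))) (Xs es (⊤ : Subgroup (SL K))) ∧
  ∀ xs ∈ Xs ds (⊤ : Subgroup (SL K)), (e xs).prod = xs.prod ∧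
    Subgroup.closure {x | x ∈ e xs} = Subgroup.closure {x | x ∈ xs}

lemma setOf_mem_cons {K : Type} [Field K] (x : SL K) (xs : List (SL K)) :
    {y | y ∈ x :: xs} = {x} ∪ {y | y ∈ xs} := by
  ext y; simp

lemma Sc_pow_conj {K : Type} [Field K] (x y : SL K) (m : ℕ) :
    Sc ((y⁻¹ * x * y) ^ m) ↔ Sc (x ^ m) := by
  have : (y⁻¹ * x * y) ^ m = y⁻¹ * x ^ m * (y⁻¹)⁻¹ := by
    have h := (conj_pow (a := y⁻¹) (b := x) (i := m))
    simpa using h
  rw [this, Sc_conj_iff]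

lemma Br_swap {K : Type} [Field K] (m m' : ℕ) (ds : List ℕ) :
    ∃ e : List (SL K) → List (SL K), Br (m :: m' :: ds) (m' :: m :: ds) e := by
  refine ⟨fun l => match l with
    | x :: y :: xs => y :: (y⁻¹ * x * y) :: xs
    | l => l, ?_, ?_⟩
  · refine ⟨?_, ?_, ?_⟩
    · intro l hl
      obtain ⟨x, l1, rfl, -, hx, hl1⟩ := mem_Xs_cons.mp hl
      obtain ⟨y, xs, rfl, -, hy, hxs⟩ := mem_Xs_cons.mp hl1
      exact cons_mem_Xs.mpr ⟨trivial, hy, cons_mem_Xs.mpr ⟨trivial, (Sc_pow_conj x y m).mpr hx, hxs⟩⟩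
    · intro l hl l' hl' hll
      obtain ⟨x, l1, rfl, -, hx, hl1⟩ := mem_Xs_cons.mp hl
      obtain ⟨y, xs, rfl, -, hy, hxs⟩ := mem_Xs_cons.mp hl1
      obtain ⟨x', l1', rfl, -, hx', hl1'⟩ := mem_Xs_cons.mp hl'
      obtain ⟨y', xs', rfl, -, hy', hxs'⟩ := mem_Xs_cons.mp hl1'
      simp only [List.cons.injEq] at hll
      obtain ⟨rfl, h2, rfl⟩ := hll
      have : x = x' := by simpa using h2
      rw [this]
    · intro l hl
      obtain ⟨y, l1, rfl, -, hy, hl1⟩ := mem_Xs_cons.mp hl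
      obtain ⟨x, xs, rfl, -, hx, hxs⟩ := mem_Xs_cons.mp hl1
      refine ⟨(y * x * y⁻¹) :: y :: xs, ?_, ?_⟩
      · refine cons_mem_Xs.mpr ⟨trivial, ?_, cons_mem_Xs.mpr ⟨trivial, hy, hxs⟩⟩
        have := (Sc_pow_conj x y⁻¹ m).mpr hx
        simpa using this
      · simp [mul_assoc]
  · intro l hl
    obtain ⟨x, l1, rfl, -, hx, hl1⟩ := mem_Xs_cons.mp hl
    obtain ⟨y, xs, rfl, -, hy, hxs⟩ := mem_Xs_cons.mp hl1
    refine ⟨by simp [mul_assoc], ?_⟩
    apply le_antisymm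
    · rw [Subgroup.closure_le]
      intro z hz
      simp only [Set.mem_ofPred_eq, List.mem_cons] at hz
      have hx' : x ∈ Subgroup.closure {z | z ∈ x :: y :: xs} := Subgroup.subset_closure (by simp)
      have hy' : y ∈ Subgroup.closure {z | z ∈ x :: y :: xs} := Subgroup.subset_closure (by simp)
      rcases hz with rfl | rfl | hz
      · exact hy'
      · exact mul_mem (mul_mem (inv_mem hy') hx') hy'
      · exact Subgroup.subset_closure (by simp [hz])
    · rw [Subgroup.closure_le]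
      intro z hz
      simp only [Set.mem_ofPred_eq, List.mem_cons] at hz
      have hx' : y⁻¹ * x * y ∈ Subgroup.closure {z | z ∈ y :: (y⁻¹ * x * y) :: xs} :=
        Subgroup.subset_closure (by simp)
      have hy' : y ∈ Subgroup.closure {z | z ∈ y :: (y⁻¹ * x * y) :: xs} :=
        Subgroup.subset_closure (by simp)
      rcases hz with rfl | rfl | hz
      · have := mul_mem (mul_mem hy' hx') (inv_mem hy')
        simpa [mul_assoc] using this
      · exact hy'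
      · exact Subgroup.subset_closure (by simp [hz])

lemma Br_perm {K : Type} [Field K] {ds es : List ℕ} (h : ds.Perm es) :
    ∃ e : List (SL K) → List (SL K), Br ds es e := by
  induction h with
  | nil => exact ⟨id, Set.bijOn_id _, fun xs _ => ⟨rfl, rfl⟩⟩
  | cons m _ ih =>
    obtain ⟨e, he, he'⟩ := ih
    refine ⟨fun l => match l with
      | x :: xs => x :: e xs
      | [] => [], ?_, ?_⟩
    · refine ⟨?_, ?_, ?_⟩
      · intro l hl
        obtain ⟨x, xs, rfl, -, hx, hxs⟩ := mem_Xs_cons.mp hl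
        exact cons_mem_Xs.mpr ⟨trivial, hx, he.mapsTo hxs⟩
      · intro l hl l' hl' hll
        obtain ⟨x, xs, rfl, -, hx, hxs⟩ := mem_Xs_cons.mp hl
        obtain ⟨x', xs', rfl, -, hx', hxs'⟩ := mem_Xs_cons.mp hl'
        simp only [List.cons.injEq] at hll
        obtain ⟨rfl, h2⟩ := hll
        rw [he.injOn hxs hxs' h2]
      · intro l hl
        obtain ⟨x, xs, rfl, -, hx, hxs⟩ := mem_Xs_cons.mp hl
        obtain ⟨ys, hys, hys'⟩ := he.surjOn hxs
        exact ⟨x :: ys, cons_mem_Xs.mpr ⟨trivial, hx, hys⟩, by simp [hys']⟩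
    · intro l hl
      obtain ⟨x, xs, rfl, -, hx, hxs⟩ := mem_Xs_cons.mp hl
      obtain ⟨h1, h2⟩ := he' xs hxs
      refine ⟨by simp [h1], ?_⟩
      change Subgroup.closure {y | y ∈ x :: e xs} = _
      rw [setOf_mem_cons, setOf_mem_cons, Subgroup.closure_union, Subgroup.closure_union, h2]
  | swap m m' l => exact Br_swap m' m l
  | trans _ _ ih1 ih2 =>
    obtain ⟨e1, h1, h1'⟩ := ih1
    obtain ⟨e2, h2, h2'⟩ := ih2
    refine ⟨e2 ∘ e1, h2.comp h1, ?_⟩
    intro xs hxs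
    obtain ⟨a1, a2⟩ := h1' xs hxs
    obtain ⟨b1, b2⟩ := h2' (e1 xs) (h1.mapsTo hxs)
    exact ⟨b1.trans a1, b2.trans a2⟩

lemma rel_congr {K : Type} [Field K] (W : Wd) {xs ys : List (SL K)} (h : xs.prod = ys.prod)
    (w : Fin W.n → SL K) : W.rel xs w ↔ W.rel ys w := by
  cases W <;> simp [Wd.rel, h]

lemma gn_eq {K : Type} [Field K] {n : ℕ} (xs : List (SL K)) (w : Fin n → SL K) :
    gn (xs, w) = Subgroup.closure {x | x ∈ xs} ⊔ Subgroup.closure (Set.range w ∪ {-1}) := by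
  rw [gn, ← Subgroup.closure_union, Set.union_assoc]

theorem stmt_PRM : Stmt_PRM := by
  intro W ds es K _ _ h
  obtain ⟨e, he, he'⟩ := Br_perm (K := K) h
  set f : List (SL K) × (Fin W.n → SL K) → List (SL K) × (Fin W.n → SL K) := fun t => (e t.1, t.2)
  have hinj : Set.InjOn f (Tup W ds (⊤ : Subgroup (SL K))) := by
    rintro ⟨xs, w⟩ ht ⟨xs', w'⟩ ht' hf
    simp only [f, Prod.mk.injEq] at hf
    obtain ⟨h1, rfl⟩ := hf
    have h2 : xs = xs' := he.injOn ht.1 ht'.1 h1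
    rw [h2]
  have himg : f '' (Tup W ds (⊤ : Subgroup (SL K))) = Tup W es (⊤ : Subgroup (SL K)) := by
    ext ⟨ys, w⟩
    constructor
    · rintro ⟨⟨xs, w'⟩, ht, hf⟩
      simp only [f, Prod.mk.injEq] at hf
      obtain ⟨rfl, rfl⟩ := hf
      exact ⟨he.mapsTo ht.1, ht.2.1, (rel_congr W (he' xs ht.1).1 w').mpr ht.2.2⟩
    · intro ht
      obtain ⟨xs, hxs, rfl⟩ := he.surjOn ht.1
      exact ⟨(xs, w), ⟨hxs, ht.2.1, (rel_congr W (he' xs hxs).1 w).mp ht.2.2⟩, rfl⟩
  have hg : ∀ t ∈ Tup W ds (⊤ : Subgroup (SL K)), gn (f t) = gn t := by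
    rintro ⟨xs, w⟩ ht
    change gn (e xs, w) = gn (xs, w)
    rw [gn_eq, gn_eq, (he' xs ht.1).2]
  have himg2 : f '' (Bad W ds K) = Bad W es K := by
    ext t
    constructor
    · rintro ⟨s, ⟨hs, hs'⟩, rfl⟩
      refine ⟨himg ▸ Set.mem_image_of_mem f hs, ?_⟩
      rwa [hg s hs]
    · rintro ⟨ht, ht'⟩
      rw [← himg] at ht
      obtain ⟨s, hs, rfl⟩ := ht
      rw [hg s hs] at ht'
      exact ⟨s, ⟨hs, ht'⟩, rfl⟩
  refine ⟨?_, ?_⟩
  · rw [← himg, Set.InjOn.ncard_image hinj]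
  · rw [← himg2, Set.InjOn.ncard_image (hinj.mono (Bad_subset W ds))]

end Pool.FG.helper28
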