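import Pool.Agent.Work.MP_65e34f.Basic

/-!
# MP_65e34f_al, block TIC: triples with image `A_4` or `A_5`
-/

namespace Pool.FG.helper28

open Matrix Pool.FG

section
variable {K : Type} [Field K]

/-- conjugation by an element of `GL_2(K)` -/
noncomputable def cg (g : GL (Fin 2) K) : SL K →* SL K where
  toFun x := ⟨(g : M2 K) * (x : M2 K) * ((g⁻¹ : GL (Fin 2) K) : M2 K), by
    have h3 : (g : M2 K) * ((g⁻¹ : GL (Fin 2) K) : M2 K) = 1 := by
      rw [← Units.val_mul, mul_inv_cancel, Units.val_one]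
    have hg : (g : M2 K).det * (((g⁻¹ : GL (Fin 2) K) : M2 K)).det = 1 := by
      rw [← Matrix.det_mul, h3, Matrix.det_one]
    rw [Matrix.det_mul, Matrix.det_mul, x.2, mul_one, hg]⟩
  map_one' := by
    ext1
    simp only [Matrix.SpecialLinearGroup.coe_one, mul_one]
    rw [← Units.val_mul, mul_inv_cancel, Units.val_one]
  map_mul' x y := by
    apply Subtype.ext
    simp only [Matrix.SpecialLinearGroup.coe_mul]
    change (g : M2 K) * ((x : M2 K) * (y : M2 K)) * ((g⁻¹ : GL (Fin 2) K) : M2 K) =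
      (g : M2 K) * (x : M2 K) * ((g⁻¹ : GL (Fin 2) K) : M2 K) *
      ((g : M2 K) * (y : M2 K) * ((g⁻¹ : GL (Fin 2) K) : M2 K))
    have h2 : ((g⁻¹ : GL (Fin 2) K) : M2 K) * (g : M2 K) = 1 := by
      rw [← Units.val_mul, inv_mul_cancel, Units.val_one]
    calc (g : M2 K) * ((x : M2 K) * (y : M2 K)) * ((g⁻¹ : GL (Fin 2) K) : M2 K)
        = (g : M2 K) * (x : M2 K) * (((g⁻¹ : GL (Fin 2) K) : M2 K) * (g : M2 K)) * (y : M2 K) *
          ((g⁻¹ : GL (Fin 2) K) : M2 K) := by rw [h2]; simp only [mul_one, mul_assoc]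
      _ = _ := by simp only [mul_assoc]

lemma cg_coe (g : GL (Fin 2) K) (x : SL K) :
    ((cg g x : SL K) : M2 K) = (g : M2 K) * (x : M2 K) * ((g⁻¹ : GL (Fin 2) K) : M2 K) := rfl

lemma cg_eq {g : GL (Fin 2) K} {x y : SL K} (h : (g : M2 K) * (x : M2 K) = (y : M2 K) * (g : M2 K)) :
    cg g x = y := by
  have h3 : (g : M2 K) * ((g⁻¹ : GL (Fin 2) K) : M2 K) = 1 := by
    rw [← Units.val_mul, mul_inv_cancel, Units.val_one]
  ext1
  rw [cg_coe, h, mul_assoc, h3, mul_one]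

lemma cg_neg_one (g : GL (Fin 2) K) : cg g (-1) = -1 := by
  have h3 : (g : M2 K) * ((g⁻¹ : GL (Fin 2) K) : M2 K) = 1 := by
    rw [← Units.val_mul, mul_inv_cancel, Units.val_one]
  ext1
  rw [cg_coe]
  simp [h3]

lemma Sc_cg (g : GL (Fin 2) K) {x : SL K} (h : Sc x) : Sc (cg g x) := by
  rcases h with rfl | rfl
  · left; exact map_one _
  · right; exact cg_neg_one g

lemma Sc_of_dvd {x : SL K} {k m : ℕ} (h : Sc (x ^ k)) (hkm : k ∣ m) : Sc (x ^ m) := by
  obtain ⟨c, rfl⟩ := hkm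
  rw [pow_mul]
  exact h.pow c

/-- the generated subgroup is small -/
lemma gn_ne_top [Finite K] (hcard : 120 < Nat.card (SL K)) {x y x1 x2 : SL K}
    (g : GL (Fin 2) K) (h1 : cg g x = x1) (h2 : cg g y = x2)
    (hc : Nat.card (Subgroup.closure {x, y, -1} : Subgroup (SL K)) ≤ 120)
    (w : Fin 0 → SL K) : gn ([x1, x2, (x1 * x2)⁻¹], w) ≠ ⊤ := by
  intro htop
  set H := (Subgroup.closure {x, y, -1} : Subgroup (SL K)) with hH
  have hx : x1 ∈ H.map (cg g) := ⟨x, Subgroup.subset_closure (by simp), h1⟩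
  have hy : x2 ∈ H.map (cg g) := ⟨y, Subgroup.subset_closure (by simp), h2⟩
  have hn : (-1 : SL K) ∈ H.map (cg g) := ⟨-1, Subgroup.subset_closure (by simp), cg_neg_one g⟩
  have hle : gn ([x1, x2, (x1 * x2)⁻¹], w) ≤ H.map (cg g) := by
    rw [gn_le_iff]
    refine ⟨?_, fun j => j.elim0, hn⟩
    intro z hz
    simp only [List.mem_cons, List.not_mem_nil, or_false] at hz
    rcases hz with rfl | rfl | rfl
    · exact hx
    · exact hy
    · exact inv_mem (mul_mem hx hy)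
  rw [htop, top_le_iff] at hle
  have h3 : Nat.card (H.map (cg g)) ≤ Nat.card H :=
    Nat.card_le_card_of_surjective _ ((cg g).subgroupMap_surjective H)
  rw [hle] at h3
  have h4 : Nat.card (⊤ : Subgroup (SL K)) = Nat.card (SL K) := Subgroup.card_top
  omega

end

/-- the count -/
lemma many_of_pair (hTRC : Stmt_TRC) (hTWO : Stmt_TWO) (hUNQ : Stmt_UNQ) (hCRD : Stmt_CRD)
    {K : Type} [Field K] [Finite K] (hq : 11 ≤ Nat.card K) {m1 m2 m3 k1 k2 k3 : ℕ}
    (d1 : k1 ∣ m1) (d2 : k2 ∣ m2) (d3 : k3 ∣ m3) {x y : SL K} (hkp : kp x y ≠ 2)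
    (h1 : Sc (x ^ k1)) (h2 : Sc (y ^ k2)) (h3 : Sc ((x * y) ^ k3))
    (hc : Nat.card (Subgroup.closure {x, y, -1} : Subgroup (SL K)) ≤ 120) :
    Many3 K 8 m1 m2 m3 := by
  have hcard : 120 < Nat.card (SL K) := by
    rw [hCRD K]
    have hq2 : 121 ≤ Nat.card K ^ 2 := by nlinarith
    have h5 : 120 ≤ Nat.card K ^ 2 - 1 := by omega
    calc 120 < 11 * 120 := by norm_num
      _ ≤ Nat.card K * (Nat.card K ^ 2 - 1) := Nat.mul_le_mul hq h5
  set s : Set (SL K) := {x1 | tr x1 = tr x ∧ ¬ Sc x1} with hs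
  have hscard : Nat.card K ^ 2 ≤ s.ncard + 2 + Nat.card K := by
    have h4 := (hTRC K 1 (tr x) one_ne_zero).2.2.1
    have hsub : {x1 : SL K | tr x1 = tr x} ⊆ s ∪ {x | Sc x} := by
      intro x1 hx1
      by_cases h : Sc x1
      · exact Or.inr h
      · exact Or.inl ⟨hx1, h⟩
    have h5 := (Set.ncard_le_ncard hsub (Set.toFinite _)).trans (Set.ncard_union_le _ _)
    have h6 := ncard_Sc_le (K := K)
    omega
  set T : SL K → Set (SL K) := fun x1 => {x2 | tr x2 = tr y ∧ tr (x1 * x2) = tr (x * y)} with hT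
  have hTcard : ∀ x1 ∈ s, Nat.card K - 3 ≤ (T x1).ncard := by
    intro x1 hx1
    have h4 := (hTWO K x1 hx1.2 (tr y) (tr (x * y))).2 (by rw [hx1.1]; exact hkp)
    have h5 : (T x1).ncard = Set.ncard {x2 : SL K | tr x2 = tr y ∧ tr (x1 * x2) = tr (x * y)} := rfl
    omega
  have hprod := le_ncard_prod (s := s) (Set.toFinite _) T (fun _ _ => Set.toFinite _) _ hTcard
  set f : SL K × SL K → List (SL K) × (Fin Wd.zero.n → SL K) :=
    fun w => ([w.1, w.2, (w.1 * w.2)⁻¹], fun j => (j : Fin 0).elim0) with hf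
  have hinj : Function.Injective f := by
    rintro ⟨a, b⟩ ⟨c, d⟩ h
    simp only [f, Prod.mk.injEq, List.cons.injEq] at h
    obtain ⟨⟨rfl, rfl, _⟩, _⟩ := h
    rfl
  have hmap : f '' {w : SL K × SL K | w.1 ∈ s ∧ w.2 ∈ T w.1} ⊆ Bad .zero [m1, m2, m3] K := by
    rintro _ ⟨⟨x1, x2⟩, ⟨⟨a1, a2⟩, b1, b2⟩, rfl⟩
    simp only at a1 a2 b1 b2
    obtain ⟨g, g1, g2⟩ := hUNQ K x y x1 x2 hkp a1.symm b1.symm b2.symm
    have e1 := cg_eq g1
    have e2 := cg_eq g2
    refine ⟨⟨?_, fun _ => trivial, ?_⟩, ?_⟩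
    · refine cons_mem_Xs.mpr ⟨trivial, ?_, cons_mem_Xs.mpr ⟨trivial, ?_, cons_mem_Xs.mpr
        ⟨trivial, ?_, by simp⟩⟩⟩
      · apply Sc_of_dvd _ d1
        rw [← e1, ← map_pow]
        exact Sc_cg g h1
      · apply Sc_of_dvd _ d2
        rw [← e2, ← map_pow]
        exact Sc_cg g h2
      · apply Sc_of_dvd _ d3
        rw [inv_pow, Sc_inv_iff, ← e1, ← e2, ← map_mul, ← map_pow]
        exact Sc_cg g h3
    · left
      change ([x1, x2, (x1 * x2)⁻¹] : List (SL K)).prod = 1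
      simp
    · exact gn_ne_top hcard g e1 e2 hc _
  have hle : {w : SL K × SL K | w.1 ∈ s ∧ w.2 ∈ T w.1}.ncard ≤ (Bad .zero [m1, m2, m3] K).ncard := by
    rw [← Set.ncard_image_of_injective _ hinj]
    exact Set.ncard_le_ncard hmap (Bad_finite _ _)
  unfold Many3
  obtain ⟨r, hr⟩ : ∃ r, Nat.card K = r + 11 := ⟨Nat.card K - 11, by omega⟩
  rw [hr] at hscard hprod ⊢
  have h7 : r + 11 - 3 = r + 8 := by omega
  rw [h7] at hprod
  have h8 : (r + 11) ^ 2 - (r + 11) - 2 ≤ s.ncard := by omega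
  have h9 : (r + 11) ^ 2 - (r + 11) - 2 = r ^ 2 + 21 * r + 108 := by
    have : (r + 11) ^ 2 = r ^ 2 + 22 * r + 121 := by ring
    omega
  rw [h9] at h8
  calc (r + 11) ^ 3 ≤ 8 * ((r ^ 2 + 21 * r + 108) * (r + 8)) := by ring_nf; nlinarith [Nat.zero_le r]
    _ ≤ 8 * (s.ncard * (r + 8)) := by gcongr
    _ ≤ _ := Nat.mul_le_mul_left _ (hprod.trans hle)

lemma many_perm (hPRM : Stmt_PRM) {K : Type} [Field K] [Finite K] {C m1 m2 m3 a b c : ℕ}
    (h : [m1, m2, m3].Perm [a, b, c]) (hm : Many3 K C a b c) : Many3 K C m1 m2 m3 := by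
  unfold Many3 at *
  rw [(hPRM .zero _ _ K h).2]
  exact hm

lemma div_of_not_coprime_30 {m : ℕ} (h : ¬ Nat.Coprime m 30) : 2 ∣ m ∨ 3 ∣ m ∨ 5 ∣ m := by
  by_contra hcon
  push Not at hcon
  apply h
  have h2 : Nat.Coprime m 2 := ((Nat.prime_two.coprime_iff_not_dvd).mpr hcon.1).symm
  have h3 : Nat.Coprime m 3 := ((Nat.prime_three.coprime_iff_not_dvd).mpr hcon.2.1).symm
  have h5 : Nat.Coprime m 5 := ((Nat.prime_five.coprime_iff_not_dvd).mpr hcon.2.2).symm
  exact (h2.mul_right h3).mul_right h5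

lemma div_of_not_coprime_6 {m : ℕ} (h : ¬ Nat.Coprime m 6) : 2 ∣ m ∨ 3 ∣ m := by
  by_contra hcon
  push Not at hcon
  apply h
  have h2 : Nat.Coprime m 2 := ((Nat.prime_two.coprime_iff_not_dvd).mpr hcon.1).symm
  have h3 : Nat.Coprime m 3 := ((Nat.prime_three.coprime_iff_not_dvd).mpr hcon.2).symm
  exact h2.mul_right h3

theorem stmt_TIC (hICO : Stmt_ICO) (hPRM : Stmt_PRM) (hPHI : Stmt_PHI) (hUNQ : Stmt_UNQ)
    (hTWO : Stmt_TWO) (hTRC : Stmt_TRC) (hCRD : Stmt_CRD) : Stmt_TIC := by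
  refine ⟨8, 11, ?_⟩
  intro K _ _ m1 m2 m3 hq hyp e12 e13 e23 hcond
  obtain ⟨p1, p2, p3, l1, l2, l3, hcop⟩ := hyp
  -- the characteristic
  have hch : ∀ n : ℕ, Nat.Coprime (ringChar K) n → (n : K) ≠ 0 := by
    intro n hn h0
    have hd : ringChar K ∣ n := (ringChar.spec K n).mp h0
    have h1 : ringChar K = 1 := Nat.eq_one_of_dvd_coprimes hn dvd_rfl hd
    have : (1 : K) = 0 := by
      have := (ringChar.spec K 1).mpr (by rw [h1])
      simpa using this
    exact one_ne_zero this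
  have c6 : Nat.Coprime (ringChar K) 6 := by
    have : 6 * m1 * m2 * m3 = 6 * (m1 * m2 * m3) := by ring
    rw [this] at hcop
    exact Nat.Coprime.coprime_mul_right_right hcop
  have h2K : (2 : K) ≠ 0 := by
    have : Nat.Coprime (ringChar K) 2 := Nat.Coprime.coprime_dvd_right (by norm_num) c6
    simpa using hch 2 this
  have h3K : (3 : K) ≠ 0 := by
    have : Nat.Coprime (ringChar K) 3 := Nat.Coprime.coprime_dvd_right (by norm_num) c6
    simpa using hch 3 this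
  -- types without 5
  have T4 : ∀ (k a b c : ℕ), (k = 2 ∨ k = 3) → k ∣ a → 3 ∣ b → 3 ∣ c → Many3 K 8 a b c := by
    intro k a b c hk ha hb hc
    have : (k, 3, 3) = (2, 3, 3) ∨ (k, 3, 3) = (3, 3, 3) := by
      rcases hk with rfl | rfl
      · exact Or.inl rfl
      · exact Or.inr rfl
    obtain ⟨x, y, a1, a2, a3, a4, a5⟩ := hICO K h2K h3K k 3 3 (by
      rcases this with h | h
      · exact Or.inl h
      · exact Or.inr (Or.inl h))
    exact many_of_pair hTRC hTWO hUNQ hCRD hq ha hb hc a1 a2 a3 a4 a5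
  -- types with 5
  have T5 : (∃ φ : K, φ ^ 2 = φ + 1) → (5 : K) ≠ 0 → ∀ (k1 k2 k3 a b c : ℕ),
      ((k1, k2, k3) = (2, 3, 5) ∨ (k1, k2, k3) = (2, 5, 5) ∨ (k1, k2, k3) = (3, 3, 5) ∨
          (k1, k2, k3) = (3, 5, 5) ∨ (k1, k2, k3) = (5, 5, 5)) →
      k1 ∣ a → k2 ∣ b → k3 ∣ c → Many3 K 8 a b c := by
    intro hφ h5 k1 k2 k3 a b c hk ha hb hc
    obtain ⟨x, y, a1, a2, a3, a4, a5⟩ := hICO K h2K h3K k1 k2 k3 (Or.inr (Or.inr ⟨hφ, h5, hk⟩))
    exact many_of_pair hTRC hTWO hUNQ hCRD hq ha hb hc a1 a2 a3 a4 a5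
  -- core: the last two periods are odd
  have core : ∀ a b c : ℕ, ¬ Even b → ¬ Even c →
      ((¬ Nat.Coprime a 6 ∧ ¬ Nat.Coprime b 6 ∧ ¬ Nat.Coprime c 6) ∨
        (5 ∣ Nat.card K ^ 2 - 1 ∧ ¬ Nat.Coprime a 30 ∧ ¬ Nat.Coprime b 30 ∧ ¬ Nat.Coprime c 30)) →
      Many3 K 8 a b c := by
    intro a b c hb hc h
    have hb2 : ¬ 2 ∣ b := fun h => hb (even_iff_two_dvd.mpr h)
    have hc2 : ¬ 2 ∣ c := fun h => hc (even_iff_two_dvd.mpr h)
    rcases h with ⟨ha, hb', hc'⟩ | ⟨h5, ha, hb', hc'⟩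
    · have b3 : 3 ∣ b := (div_of_not_coprime_6 hb').resolve_left hb2
      have c3 : 3 ∣ c := (div_of_not_coprime_6 hc').resolve_left hc2
      rcases div_of_not_coprime_6 ha with h | h
      · exact T4 2 a b c (Or.inl rfl) h b3 c3
      · exact T4 3 a b c (Or.inr rfl) h b3 c3
    · have hφ := hPHI K h5
      have h5K : (5 : K) ≠ 0 := by
        intro h0
        have hd : ringChar K ∣ 5 := (ringChar.spec K 5).mp (by simpa using h0)
        have hr : ringChar K = 5 := by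
          rcases (Nat.dvd_prime Nat.prime_five).mp hd with h | h
          · exfalso
            have : (1 : K) = 0 := by
              have := (ringChar.spec K 1).mpr (by rw [h])
              simpa using this
            exact one_ne_zero this
          · exact h
        have := Fintype.ofFinite K
        obtain ⟨n, hp, hn⟩ := FiniteField.card K (ringChar K)
        have h6 : 5 ∣ Nat.card K := by
          rw [Nat.card_eq_fintype_card, hn, hr]
          exact dvd_pow_self 5 n.ne_zero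
        have h7 : 5 ∣ Nat.card K ^ 2 := dvd_pow h6 (by norm_num)
        have h8 : 1 ≤ Nat.card K ^ 2 := Nat.one_le_pow _ _ Nat.card_pos
        omega
      have b35 : 3 ∣ b ∨ 5 ∣ b := (div_of_not_coprime_30 hb').resolve_left hb2
      have c35 : 3 ∣ c ∨ 5 ∣ c := (div_of_not_coprime_30 hc').resolve_left hc2
      have sw23 : [a, b, c].Perm [a, c, b] := List.Perm.cons _ (List.Perm.swap _ _ _)
      have rot : [a, b, c].Perm [b, c, a] :=
        (List.Perm.swap b a [c]).trans (List.Perm.cons _ (List.Perm.swap _ _ _))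
      have sw12 : [a, b, c].Perm [b, a, c] := List.Perm.swap _ _ _
      have rot2 : [a, b, c].Perm [c, a, b] :=
        (List.Perm.cons a (List.Perm.swap c b [])).trans (List.Perm.swap _ _ _)
      rcases div_of_not_coprime_30 ha with h | h | h <;> rcases b35 with hb3 | hb5 <;>
        rcases c35 with hc3 | hc5
      · exact T4 2 a b c (Or.inl rfl) h hb3 hc3
      · exact T5 hφ h5K 2 3 5 a b c (by simp) h hb3 hc5
      · exact many_perm hPRM sw23 (T5 hφ h5K 2 3 5 a c b (by simp) h hc3 hb5)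
      · exact T5 hφ h5K 2 5 5 a b c (by simp) h hb5 hc5
      · exact T4 3 a b c (Or.inr rfl) h hb3 hc3
      · exact T5 hφ h5K 3 3 5 a b c (by simp) h hb3 hc5
      · exact many_perm hPRM sw23 (T5 hφ h5K 3 3 5 a c b (by simp) h hc3 hb5)
      · exact T5 hφ h5K 3 5 5 a b c (by simp) h hb5 hc5
      · exact many_perm hPRM rot (T5 hφ h5K 3 3 5 b c a (by simp) hb3 hc3 h)
      · exact many_perm hPRM sw12 (T5 hφ h5K 3 5 5 b a c (by simp) hb3 h hc5)
      · exact many_perm hPRM rot2 (T5 hφ h5K 3 5 5 c a b (by simp) hc3 h hb5)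
      · exact T5 hφ h5K 5 5 5 a b c (by simp) h hb5 hc5
  -- at most one period is even
  by_cases o3 : Even m3
  · have o1 : ¬ Even m1 := fun h => e13 ⟨h, o3⟩
    have o2 : ¬ Even m2 := fun h => e23 ⟨h, o3⟩
    have rot2 : [m1, m2, m3].Perm [m3, m1, m2] :=
      (List.Perm.cons m1 (List.Perm.swap m3 m2 [])).trans (List.Perm.swap _ _ _)
    refine many_perm hPRM rot2 (core m3 m1 m2 o1 o2 ?_)
    rcases hcond with ⟨a, b, c⟩ | ⟨h, a, b, c⟩
    · exact Or.inl ⟨c, a, b⟩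
    · exact Or.inr ⟨h, c, a, b⟩
  · by_cases o2 : Even m2
    · have o1 : ¬ Even m1 := fun h => e12 ⟨h, o2⟩
      have sw12 : [m1, m2, m3].Perm [m2, m1, m3] := List.Perm.swap _ _ _
      refine many_perm hPRM sw12 (core m2 m1 m3 o1 o3 ?_)
      rcases hcond with ⟨a, b, c⟩ | ⟨h, a, b, c⟩
      · exact Or.inl ⟨b, a, c⟩
      · exact Or.inr ⟨h, b, a, c⟩
    · exact core m1 m2 m3 o2 o3 hcond

end Pool.FG.helper28
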