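import Pool.Agent.Work.MP_65e34f_85.D4
import Pool.Agent.Work.MP_65e34f_helper18.RDN
import Pool.Agent.Work.MP_65e34f_helper18.RDO
import Pool.Agent.Work.MP_65e34f_helper20.BC1
import Pool.Agent.Work.MP_65e34f_helper20.BZ4
import Pool.Agent.Work.MP_65e34f_helper20.CNJ
import Pool.Agent.Work.MP_65e34f_helper20.TWO
import Pool.Agent.Work.MP_65e34f_helper20.TYS
import Pool.Agent.Work.MP_65e34f_helper22.LWS
import Pool.Agent.Work.MP_65e34f_helper22.SBF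
import Pool.Agent.Work.MP_65e34f_helper22.TGO
import Pool.Agent.Work.MP_65e34f_helper27.TOB
import Pool.Agent.Work.MP_65e34f_helper27.UPN
import Pool.Agent.Work.MP_65e34f_helper28.BDL
import Pool.Agent.Work.MP_65e34f_helper28.BDT
import Pool.Agent.Work.MP_65e34f_helper28.DIC
import Pool.Agent.Work.MP_65e34f_helper28.FIN
import Pool.Agent.Work.MP_65e34f_helper28.FLT
import Pool.Agent.Work.MP_65e34f_helper28.Gap
import Pool.Agent.Work.MP_65e34f_helper28.GDN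
import Pool.Agent.Work.MP_65e34f_helper28.GDT
import Pool.Agent.Work.MP_65e34f_helper28.GOO
import Pool.Agent.Work.MP_65e34f_helper28.LWT
import Pool.Agent.Work.MP_65e34f_helper28.PRM
import Pool.Agent.Work.MP_65e34f_helper28.TIC
import Pool.Agent.Work.MP_65e34f_helper30.ICO
import Pool.Agent.Work.MP_65e34f_helper30.UNQ
import Pool.Agent.Work.MP_65e34f_helper39.TRM
import Pool.Agent.Work.MP_65e34f_helper39.UPF
import Pool.Agent.Work.MP_65e34f_helper39.UPZ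
import Pool.Agent.Work.MP_65e34f_helper4.BND
import Pool.Agent.Work.MP_65e34f_helper4.BTV
import Pool.Agent.Work.MP_65e34f_helper4.D5
import Pool.Agent.Work.MP_65e34f_helper4.TEV
import Pool.Agent.Work.MP_65e34f_helper41.LWF
import Pool.Agent.Work.MP_65e34f_helper41.PRO
import Pool.Agent.Work.MP_65e34f_helper41.SQT
import Pool.Agent.Work.MP_65e34f_helper46.D3b
import Pool.Agent.Work.MP_65e34f_helper46.ROL
import Pool.Agent.Work.MP_65e34f_helper55.LIV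
import Pool.Agent.Work.MP_65e34f_helper55.SQR
import Pool.Agent.Work.MP_65e34f_helper63.BOB
import Pool.Agent.Work.MP_65e34f_helper63.CNC
import Pool.Agent.Work.MP_65e34f_helper63.D0
import Pool.Agent.Work.MP_65e34f_helper63.D6
import Pool.Agent.Work.MP_65e34f_helper63.KAP
import Pool.Agent.Work.MP_65e34f_helper63.SIG
import Pool.Agent.Work.MP_65e34f_helper63.TSU
import Pool.Agent.Work.MP_65e34f_helper68.TLO
import Pool.Agent.Work.MP_65e34f_helper76.CRD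
import Pool.Agent.Work.MP_65e34f_helper76.D2
import Pool.Agent.Work.MP_65e34f_helper76.LSM
import Pool.Agent.Work.MP_65e34f_helper76.ORB
import Pool.Agent.Work.MP_65e34f_helper76.RPB
import Pool.Agent.Work.MP_65e34f_helper79.BF2
import Pool.Agent.Work.MP_65e34f_helper79.UPB
import Pool.Agent.Work.MP_65e34f_helper83.COM
import Pool.Agent.Work.MP_65e34f_helper83.LWC
import Pool.Agent.Work.MP_65e34f_helper83.LWZ
import Pool.Agent.Work.MP_65e34f_helper83.PRT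
import Pool.Agent.Work.MP_65e34f_helper83.ROS
import Pool.Agent.Work.MP_65e34f_helper83.TBO
import Pool.Agent.Work.MP_65e34f_helper83.TRC

namespace Pool.FG.helper28

/-- the two main estimates -/
theorem asm : Stmt_GOO ∧ Stmt_BAA := by
  have hTRC : Stmt_TRC := Pool.FG.helper83.stmt_TRC
  have hCRD : Stmt_CRD := Pool.FG.helper76.stmt_CRD
  have hLIV : Stmt_LIV := Pool.FG.helper55.stmt_LIV hCRD
  have hPHI : Stmt_PHI := Pool.FG.helper55.stmt_PHI hCRD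
  have hSQR : Stmt_SQR := Pool.FG.helper55.stmt_SQR
  have hCNJ : Stmt_CNJ := Pool.FG.helper20.stmt_CNJ
  have hCNC : Stmt_CNC := Pool.FG.helper63.stmt_CNC
  have hTWO : Stmt_TWO := Pool.FG.helper20.stmt_TWO hCNJ hCNC
  have hROS : Stmt_ROS := Pool.FG.helper83.stmt_ROS hTRC hCRD hCNC hTWO
  have hROL : Stmt_ROL := Pool.FG.helper46.stmt_ROL
  have hTRM : Stmt_TRM := Pool.FG.helper39.stmt_TRM
  have hUNQ : Stmt_UNQ := Pool.FG.helper30.stmt_UNQ hCNJ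
  have hSIG : Stmt_SIG := Pool.FG.helper63.stmt_SIG hUNQ
  have hCOM : Stmt_COM := Pool.FG.helper83.stmt_COM hCNJ hCNC hTWO
  have hSQT : Stmt_SQT := Pool.FG.helper41.stmt_SQT hTWO hSQR
  have hUPF : Stmt_UPF := Pool.FG.helper39.stmt_UPF hTRM hSQR
  have hUPZ : Stmt_UPZ := Pool.FG.helper39.stmt_UPZ hTRM
  have hBOB : Stmt_BOB := Pool.FG.helper63.stmt_BOB
  have hUPB : Stmt_UPB := Pool.FG.helper79.stmt_UPB hBOB hTRM hSQR hROS
  have hTOB : Stmt_TOB := Pool.FG.helper27.stmt_TOB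
  have hUPN : Stmt_UPN := Pool.FG.helper27.stmt_UPN hTOB hTRM
  have hRPB : Stmt_RPB := Pool.FG.helper76.stmt_RPB
  have hRPN : Stmt_RPN := Pool.FG.helper76.stmt_RPN
  have hLSM : Stmt_LSM := Pool.FG.helper76.stmt_LSM
  have hSBF : Stmt_SBF := Pool.FG.helper22.stmt_SBF
  have hTYS : Stmt_TYS := Pool.FG.helper20.stmt_TYS hTRM hTRC hTWO
  have hPRO : Stmt_PRO := Pool.FG.helper41.stmt_PRO hTRC hCNJ
  have hPRT : Stmt_PRT := Pool.FG.helper83.stmt_PRT hTRC hTWO hCNJ hPRO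
  have hLWF : Stmt_LWF := Pool.FG.helper41.stmt_LWF hTRC hCRD hCNJ
  have hLWC : Stmt_LWC := Pool.FG.helper83.stmt_LWC hCOM hPRO hPRT
  have hLWS : Stmt_LWS := Pool.FG.helper22.stmt_LWS hPRO hTWO hSQR hCNJ hTRC
  have hLWT : Stmt_LWT := stmt_LWT hSQT hPRO
  have hLWZ : Stmt_LWZ := Pool.FG.helper83.stmt_LWZ hPRT hTWO hCNJ
  have hD0 : Stmt_D0 := Pool.FG.helper63.stmt_D0
  have hD5 : Stmt_D5 := Pool.FG.helper4.stmt_D5
  have hD6 : Stmt_D6 := Pool.FG.helper63.stmt_D6 hD0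
  have hORB : Stmt_ORB := Pool.FG.helper76.stmt_ORB
  have hD2 : Stmt_D2 := Pool.FG.helper76.stmt_D2 hD0 hORB
  have hD3a : Stmt_D3a := Pool.FG.h85.stmt_D3a hD0
  have hD3b : Stmt_D3b := Pool.FG.helper46.stmt_D3b hD0 hORB hD3a
  have hD4 : Stmt_D4 := Pool.FG.h85.stmt_D4 hD0
  have hDIC : Stmt_DIC := stmt_DIC hD2 hD3b hD4 hD5 hD6
  have hGDN : Stmt_GDN := stmt_GDN hDIC hUPF hUPZ hUPB hUPN hRPB hRPN hLSM hSBF hTYS hLWF hLWC
    hLWS hLWT hLWZ hROL
  have hKAP : Stmt_KAP := Pool.FG.helper63.stmt_KAP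
  have hTLO : Stmt_TLO := Pool.FG.helper68.stmt_TLO hKAP hTWO hTRC hCNJ
  have hTGO : Stmt_TGO := Pool.FG.helper22.stmt_TGO hDIC hUPN hRPN hLIV hCRD
  have hGDT : Stmt_GDT := stmt_GDT hTLO hTGO
  have hBTV : Stmt_BTV := Pool.FG.helper4.stmt_BTV
  have hBC1 : Stmt_BC1 := Pool.FG.helper20.stmt_BC1 hTRC hUPF hROS hBOB
  have hBND : Stmt_BND := Pool.FG.helper4.stmt_BND hSIG
  have hBF2 : Stmt_BF2 := Pool.FG.helper79.stmt_BF2 hTRC hUPF hROS
  have hBS2 : Stmt_BS2 := Pool.FG.helper79.stmt_BS2 hTRC hUPF hROS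
  have hBZ4 : Stmt_BZ4 := Pool.FG.helper20.stmt_BZ4 hTRC hTWO hUPZ hROS hTOB
  have hPRM : Stmt_PRM := stmt_PRM
  have hTEV : Stmt_TEV := Pool.FG.helper4.stmt_TEV hTRC hCNJ hTWO hTOB
  have hTBO : Stmt_TBO := Pool.FG.helper83.stmt_TBO hTRC hCNJ
  have hTSU : Stmt_TSU := Pool.FG.helper63.stmt_TSU hKAP hSIG hTWO hTRC hCNJ
  have hICO : Stmt_ICO := Pool.FG.helper30.stmt_ICO
  have hTIC : Stmt_TIC := stmt_TIC hICO hPRM hPHI hUNQ hTWO hTRC hCRD
  have hBDT : Stmt_BDT := stmt_BDT hUPZ hROS hTEV hTBO hTIC hTSU hBND hPRM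
  have hBDL : Stmt_BDL := stmt_BDL hBTV hBF2 hBC1 hBS2 hBZ4 hBDT
  have hFLT : Stmt_FLT := stmt_FLT hLIV
  have hGOO : Stmt_GOO := stmt_GOO hGDN hGDT hFLT hLIV
  have hBAA : Stmt_BAA := stmt_BAA hBDL hFLT hLIV
  exact ⟨hGOO, hBAA⟩

/-- the theorem -/
theorem final : Stmt_FIN :=
  stmt_FIN asm.1 asm.2 Pool.FG.helper18.stmt_RDO Pool.FG.helper18.stmt_RDN

end Pool.FG.helper28
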