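import Pool.Agent.Work.MP_65e34f.Basic

/-!
# MP_65e34f_al, block GDN: the good cases other than the triangle type
-/

namespace Pool.FG.helper28

open Matrix Pool.FG

/-- exponent for the Borel subgroups -/
def bex (W : Wd) (l : ℕ) : ℕ := match W with
  | .comm => if l = 1 then 3 else dimB .comm l
  | .free r => dimB (.free r) l
  | .zero => dimB .zero l
  | .sq => dimB .sq l
  | .sq2 => dimB .sq2 l

lemma ev_le (ds : List ℕ) : ev ds ≤ ds.length := List.length_filter_le _ _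

lemma ev_lt {ds : List ℕ} (h : ¬ allEven ds) : ev ds < ds.length := by
  unfold allEven at h
  push Not at h
  obtain ⟨m, hm, hodd⟩ := h
  refine lt_of_le_of_ne (ev_le ds) fun heq => ?_
  have := List.length_filter_eq_length_iff.mp heq m hm
  simp only [decide_eq_true_eq] at this
  exact hodd (Nat.even_iff.mpr this)

lemma expo {K : Type} [Field K] {W : Wd} {ds : List ℕ} (hW : W = .zero → ds.length ≠ 3)
    (h : CritL K W ds) :
    4 ≤ dimW W ds.length ∧ bex W ds.length + 2 ≤ dimW W ds.length ∧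
      dimN W ds + 3 ≤ dimW W ds.length := by
  have h1 := ev_le ds
  have h2 : ¬ allEven ds → ev ds < ds.length := ev_lt
  cases W with
  | free r =>
    obtain ⟨h3, h4⟩ := h
    simp only [dimW, bex, dimB, dimN]
    by_cases h5 : allEven ds
    · have : ¬ (r = 0 ∧ ds.length = 2) := fun h6 => h4 ⟨h6.1, h6.2, h5⟩
      omega
    · have := h2 h5
      omega
  | zero =>
    have hW' := hW rfl
    simp only [dimW, bex, dimB, dimN]
    rcases h with h | ⟨h, h'⟩ | ⟨m1, m2, m3, h, _⟩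
    · omega
    · have := h2 h'
      omega
    · rw [h] at hW'; exact absurd rfl hW'
  | comm =>
    obtain ⟨h3, h4⟩ := h
    simp only [dimW, bex, dimB, dimN]
    split_ifs <;> omega
  | sq =>
    obtain ⟨h3, h4⟩ := h
    simp only [dimW, bex, dimB, dimN]
    by_cases h5 : allEven ds
    · have : ¬ (ds.length = 2) := fun h6 => h4 ⟨h6, h5⟩
      omega
    · have := h2 h5
      omega
  | sq2 =>
    have h3 : 1 ≤ ds.length := h
    simp only [dimW, bex, dimB, dimN]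
    omega

lemma cl_of_crit {K : Type} [Field K] {W : Wd} {ds : List ℕ} (hW : W = .zero → ds.length ≠ 3)
    (h : CritL K W ds) : cl K W ds := by
  cases W with
  | free r => exact trivial
  | zero =>
    have hW' := hW rfl
    rcases h with h | ⟨h, h'⟩ | ⟨m1, m2, m3, h, _⟩
    · exact le_trans (by norm_num) h
    · exact le_of_eq h.symm
    · rw [h] at hW'; exact absurd rfl hW'
  | comm => exact h
  | sq => exact h.1
  | sq2 => exact h

/-- the Borel bound, uniformly -/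
lemma bor (hUPB : Stmt_UPB) (W : Wd) (ds : List ℕ) (hm : ∀ m ∈ ds, 1 ≤ m) :
    ∃ C : ℕ, ∀ (K : Type) [Field K] [Finite K], (W = .zero → ds.length ≠ 3) → CritL K W ds →
      ∀ (v : Fin 2 → K) (hv : v ≠ 0),
        (Tup W ds (Bor v hv)).ncard ≤ C * Nat.card K ^ bex W ds.length := by
  by_cases h0 : ds = [] ∧ (W = .sq ∨ W = .zero)
  · refine ⟨0, fun K _ _ hW hcr => ?_⟩
    exfalso
    obtain ⟨rfl, h0⟩ := h0
    rcases h0 with rfl | rfl
    · have := hcr.1; simp at this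
    · rcases hcr with h | ⟨h, _⟩ | ⟨_, _, _, h, _⟩ <;> simp at h
  · have h0' : ds ≠ [] ∨ (W ≠ .sq ∧ W ≠ .zero) := by
      by_cases h : ds = []
      · right
        constructor
        · rintro rfl; exact h0 ⟨h, Or.inl rfl⟩
        · rintro rfl; exact h0 ⟨h, Or.inr rfl⟩
      · exact Or.inl h
    by_cases h1 : W = .comm ∧ ds.length = 1
    · obtain ⟨rfl, h1⟩ := h1
      obtain ⟨m, rfl⟩ := List.length_eq_one_iff.mp h1
      obtain ⟨C, hC⟩ := hUPB.2 m (hm m (by simp))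
      refine ⟨C, fun K _ _ hW hcr v hv => ?_⟩
      have hp : ¬ ringChar K ∣ m := fun hp => hcr.2 ⟨rfl, m, by simp, hp⟩
      simpa [bex] using hC K hp v hv
    · obtain ⟨C, hC⟩ := hUPB.1 W ds h0' hm
      refine ⟨C, fun K _ _ hW hcr v hv => ?_⟩
      have : bex W ds.length = dimB W ds.length := by
        cases W <;> simp only [bex]
        rw [if_neg (fun h => h1 ⟨rfl, h⟩)]
      rw [this]
      exact hC K v hv

/-- the upper bound over rank one subgroups, uniformly -/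
lemma upp (hUPF : Stmt_UPF) (hUPZ : Stmt_UPZ) (W : Wd) (ds : List ℕ) (hm : ∀ m ∈ ds, 1 ≤ m) :
    ∃ C : ℕ, ∀ (K : Type) [Field K] [Finite K], (W = .zero → ds.length ≠ 3) → CritL K W ds →
      ∀ (H : Subgroup (SL K)) (Q : ℕ), 1 ≤ Q → -1 ∈ H → RO H Q →
        (Tup W ds H).ncard ≤ C * Q ^ dimW W ds.length := by
  by_cases hz : W = .zero
  · subst hz
    by_cases h3 : 3 ≤ ds.length
    · obtain ⟨C, hC⟩ := hUPZ ds h3 hm
      exact ⟨C, fun K _ _ _ _ H Q h1 h2 h3 => hC K H Q h1 h2 h3⟩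
    · refine ⟨0, fun K _ _ hW hcr => ?_⟩
      exfalso
      rcases hcr with h | ⟨h, _⟩ | ⟨_, _, _, h, _⟩
      · omega
      · omega
      · rw [h] at h3; simp at h3
  · by_cases h0 : ds ≠ [] ∨ ∃ r, W = .free r
    · obtain ⟨C, hC⟩ := hUPF W ds hz h0 hm
      exact ⟨C, fun K _ _ _ _ H Q h1 h2 h3 => hC K H Q h1 h2 h3⟩
    · refine ⟨0, fun K _ _ hW hcr => ?_⟩
      exfalso
      push Not at h0
      obtain ⟨rfl, h0⟩ := h0
      cases W with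
      | free r => exact h0 r rfl
      | zero => exact hz rfl
      | comm => have := hcr.1; simp at this
      | sq => have := hcr.1; simp at this
      | sq2 => have h5 : 1 ≤ ([] : List ℕ).length := hcr; simp at h5

lemma low (hLWF : Stmt_LWF) (hLWC : Stmt_LWC) (hLWS : Stmt_LWS) (hLWT : Stmt_LWT) (hLWZ : Stmt_LWZ)
    (W : Wd) : LowW W := by
  cases W with
  | free r => exact hLWF r
  | zero => exact hLWZ
  | comm => exact hLWC
  | sq => exact hLWS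
  | sq2 => exact hLWT

lemma add_pow_four (x y : ℕ) : (x + y) ^ 4 ≤ 8 * (x ^ 4 + y ^ 4) := by
  zify
  nlinarith [sq_nonneg ((x : ℤ) - y), sq_nonneg ((x : ℤ) ^ 2 - y ^ 2), sq_nonneg ((x : ℤ) + y),
    mul_nonneg (sq_nonneg ((x : ℤ) - y)) (sq_nonneg ((x : ℤ) - y)),
    mul_nonneg (sq_nonneg ((x : ℤ) - y)) (sq_nonneg ((x : ℤ) + y)),
    mul_nonneg (mul_nonneg (Int.natCast_nonneg x) (Int.natCast_nonneg y)) (sq_nonneg ((x : ℤ) - y)),
    mul_nonneg (sq_nonneg ((x : ℤ))) (sq_nonneg ((x : ℤ) - y)),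
    mul_nonneg (sq_nonneg ((y : ℤ))) (sq_nonneg ((x : ℤ) - y))]

/-- the numerical conclusion -/
lemma numeric {q e b n S C1 C2 C3 C4 C5 C6 T X1 X2 X3 X4 M X : ℕ} (hq : 1 ≤ q) (he : 4 ≤ e)
    (hb : b + 2 ≤ e) (hn : n + 3 ≤ e) (hlow : q ^ e ≤ C1 * T)
    (h1 : X1 ≤ (q + 1) * (C2 * q ^ b)) (h2 : X2 ≤ (q ^ 2 + q + 1) * (C3 * q ^ n))
    (h3 : X3 ≤ C4 * q ^ 3) (h4 : X4 ≤ S * M) (hM : M ^ 2 ≤ 4 * C5 ^ 2 * q ^ (2 * e - 1))
    (hS : S ^ 4 ≤ C6 * q) (hX : X ≤ X1 + X2 + X3 + X4) :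
    X ^ 4 * q ≤ (8 * ((2 * C2 + 3 * C3 + C4) ^ 4 + 16 * C5 ^ 4 * C6) * C1 ^ 4) * T ^ 4 := by
  obtain ⟨f, rfl⟩ : ∃ f, e = f + 1 := ⟨e - 1, by omega⟩
  have hb' : b + 1 ≤ f := by omega
  have hn' : n + 2 ≤ f := by omega
  have hf : 3 ≤ f := by omega
  have hp : ∀ i, i ≤ f → q ^ i ≤ q ^ f := fun i hi => Nat.pow_le_pow_right hq hi
  have hX1 : X1 ≤ 2 * C2 * q ^ f := by
    calc X1 ≤ (q + 1) * (C2 * q ^ b) := h1
      _ ≤ (2 * q) * (C2 * q ^ b) := Nat.mul_le_mul_right _ (by omega)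
      _ = 2 * C2 * q ^ (b + 1) := by ring
      _ ≤ 2 * C2 * q ^ f := Nat.mul_le_mul_left _ (hp _ hb')
  have hX2 : X2 ≤ 3 * C3 * q ^ f := by
    have : q ^ 2 + q + 1 ≤ 3 * q ^ 2 := by nlinarith
    calc X2 ≤ (q ^ 2 + q + 1) * (C3 * q ^ n) := h2
      _ ≤ (3 * q ^ 2) * (C3 * q ^ n) := Nat.mul_le_mul_right _ this
      _ = 3 * C3 * q ^ (n + 2) := by ring
      _ ≤ 3 * C3 * q ^ f := Nat.mul_le_mul_left _ (hp _ hn')
  have hX3 : X3 ≤ C4 * q ^ f := h3.trans (Nat.mul_le_mul_left _ (hp _ hf))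
  have hA : X ≤ (2 * C2 + 3 * C3 + C4) * q ^ f + X4 := by nlinarith
  have h44 : X4 ^ 4 ≤ 16 * C5 ^ 4 * C6 * q ^ (4 * f + 3) := by
    calc X4 ^ 4 ≤ (S * M) ^ 4 := Nat.pow_le_pow_left h4 4
      _ = S ^ 4 * (M ^ 2) ^ 2 := by ring
      _ ≤ (C6 * q) * (4 * C5 ^ 2 * q ^ (2 * (f + 1) - 1)) ^ 2 :=
          Nat.mul_le_mul hS (Nat.pow_le_pow_left hM 2)
      _ = 16 * C5 ^ 4 * C6 * (q * (q ^ (2 * (f + 1) - 1)) ^ 2) := by ring
      _ = 16 * C5 ^ 4 * C6 * q ^ (4 * f + 3) := by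
          congr 1
          rw [← pow_mul, ← pow_succ']
          congr 1
          omega
  calc X ^ 4 * q ≤ ((2 * C2 + 3 * C3 + C4) * q ^ f + X4) ^ 4 * q :=
        Nat.mul_le_mul_right _ (Nat.pow_le_pow_left hA 4)
    _ ≤ 8 * (((2 * C2 + 3 * C3 + C4) * q ^ f) ^ 4 + X4 ^ 4) * q :=
        Nat.mul_le_mul_right _ (add_pow_four _ _)
    _ ≤ 8 * (((2 * C2 + 3 * C3 + C4) * q ^ f) ^ 4 + 16 * C5 ^ 4 * C6 * q ^ (4 * f + 3)) * q := by
        gcongr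
    _ = 8 * ((2 * C2 + 3 * C3 + C4) ^ 4 * q ^ (4 * f + 1) + 16 * C5 ^ 4 * C6 * q ^ (4 * f + 4)) := by
        ring
    _ ≤ 8 * ((2 * C2 + 3 * C3 + C4) ^ 4 * q ^ (4 * f + 4) + 16 * C5 ^ 4 * C6 * q ^ (4 * f + 4)) := by
        have : q ^ (4 * f + 1) ≤ q ^ (4 * f + 4) := Nat.pow_le_pow_right hq (by omega)
        gcongr
    _ = 8 * ((2 * C2 + 3 * C3 + C4) ^ 4 + 16 * C5 ^ 4 * C6) * (q ^ (f + 1)) ^ 4 := by ring
    _ ≤ 8 * ((2 * C2 + 3 * C3 + C4) ^ 4 + 16 * C5 ^ 4 * C6) * (C1 * T) ^ 4 := by gcongr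
    _ = _ := by ring

/-- one subfield -/
lemma one_subfield {q l e C N : ℕ} (he : 4 ≤ e) (hl : 1 ≤ l) (hlq : l ^ 2 ≤ q)
    (h : l ^ 3 * N ≤ 2 * q ^ 3 * (C * l ^ e)) : N ^ 2 ≤ 4 * C ^ 2 * q ^ (2 * e - 1) := by
  obtain ⟨f, rfl⟩ : ∃ f, e = f + 3 := ⟨e - 3, by omega⟩
  have hl3 : 0 < l ^ 3 := by positivity
  have h1 : N ≤ 2 * C * q ^ 3 * l ^ f := by
    have : l ^ 3 * N ≤ l ^ 3 * (2 * C * q ^ 3 * l ^ f) := by
      calc l ^ 3 * N ≤ 2 * q ^ 3 * (C * l ^ (f + 3)) := h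
        _ = l ^ 3 * (2 * C * q ^ 3 * l ^ f) := by ring
    exact Nat.le_of_mul_le_mul_left this hl3
  have hq : 1 ≤ q := le_trans (Nat.one_le_pow _ _ hl) hlq
  calc N ^ 2 ≤ (2 * C * q ^ 3 * l ^ f) ^ 2 := Nat.pow_le_pow_left h1 2
    _ = 4 * C ^ 2 * (q ^ 6 * (l ^ 2) ^ f) := by ring
    _ ≤ 4 * C ^ 2 * (q ^ 6 * q ^ f) := by gcongr
    _ = 4 * C ^ 2 * q ^ (f + 6) := by ring
    _ ≤ 4 * C ^ 2 * q ^ (2 * (f + 3) - 1) := by
        apply Nat.mul_le_mul_left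
        apply Nat.pow_le_pow_right hq
        omega

theorem stmt_GDN (hDIC : Stmt_DIC) (hUPF : Stmt_UPF) (hUPZ : Stmt_UPZ) (hUPB : Stmt_UPB)
    (hUPN : Stmt_UPN) (hRPB : Stmt_RPB) (hRPN : Stmt_RPN) (hLSM : Stmt_LSM) (hSBF : Stmt_SBF)
    (hTYS : Stmt_TYS) (hLWF : Stmt_LWF) (hLWC : Stmt_LWC) (hLWS : Stmt_LWS) (hLWT : Stmt_LWT)
    (hLWZ : Stmt_LWZ) (hROL : Stmt_ROL) : Stmt_GDN := by
  intro W ds hW hm
  obtain ⟨C1, N1, hC1⟩ := low hLWF hLWC hLWS hLWT hLWZ W ds hm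
  obtain ⟨C2, hC2⟩ := bor hUPB W ds hm
  obtain ⟨C3, hC3⟩ := hUPN W ds hm
  obtain ⟨C4, hC4⟩ := hTYS W ds hm
  obtain ⟨C5, hC5⟩ := upp hUPF hUPZ W ds hm
  obtain ⟨⟨C6, hC6⟩, hsq⟩ := hSBF
  refine ⟨8 * ((2 * C2 + 3 * C3 + C4) ^ 4 + 16 * C5 ^ 4 * C6) * C1 ^ 4, N1, ?_⟩
  intro K _ _ hq hliv hcr
  obtain ⟨he, hb, hn⟩ := expo hW hcr
  have hq2 : 2 ≤ Nat.card K := two_le_card
  have hfin := Tup_finite W ds (⊤ : Subgroup (SL K))
  have hfinS : Finite (Subfield K) :=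
    Finite.of_injective (fun L : Subfield K => (L : Set K)) SetLike.coe_injective
  have := Fintype.ofFinite (Subfield K)
  -- the four types
  set S1 : Set (List (SL K) × (Fin W.n → SL K)) :=
    {t | t ∈ Tup W ds (⊤ : Subgroup (SL K)) ∧ ∃ (v : Fin 2 → K) (hv : v ≠ 0), gn t ≤ Bor v hv}
  set S2 : Set (List (SL K) × (Fin W.n → SL K)) :=
    {t | t ∈ Tup W ds (⊤ : Subgroup (SL K)) ∧ ∃ y : M2 K, dsc y ≠ 0 ∧ gn t ≤ Nor y}
  set S3 : Set (List (SL K) × (Fin W.n → SL K)) :=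
    {t | t ∈ Tup W ds (⊤ : Subgroup (SL K)) ∧ Nat.card (gn t) ≤ 120 ∧
      ∃ x ∈ gn t, ∃ y ∈ gn t, kp x y ≠ 2}
  set S4 : Subfield K → Set (List (SL K) × (Fin W.n → SL K)) := fun L =>
    {t | L ≠ ⊤ ∧ t ∈ Tup W ds (⊤ : Subgroup (SL K)) ∧ ∃ g : GL (Fin 2) K, gn t ≤ HL L g}
  set M : ℕ := Nat.sqrt (4 * C5 ^ 2 * Nat.card K ^ (2 * dimW W ds.length - 1))
  have hsub : Bad W ds K ⊆ S1 ∪ S2 ∪ S3 ∪ ⋃ L, S4 L := by
    rintro t ⟨ht, hne⟩
    rcases hDIC K (gn t) (neg_one_mem_gn t) hne with h | h | h | ⟨L, hL, g, hg⟩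
    · exact Or.inl (Or.inl (Or.inl ⟨ht, h⟩))
    · exact Or.inl (Or.inl (Or.inr ⟨ht, h⟩))
    · exact Or.inl (Or.inr ⟨ht, h.1.1, h.2⟩)
    · right
      exact Set.mem_iUnion.mpr ⟨L, hL, ht, g, hg⟩
  have hS4fin : (⋃ L, S4 L).Finite := by
    apply Set.finite_iUnion
    intro L
    exact hfin.subset (fun t ht => ht.2.1)
  have hS1fin : S1.Finite := hfin.subset (fun t ht => ht.1)
  have hS2fin : S2.Finite := hfin.subset (fun t ht => ht.1)
  have hS3fin : S3.Finite := hfin.subset (fun t ht => ht.1)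
  have hX : (Bad W ds K).ncard ≤ S1.ncard + S2.ncard + S3.ncard + (⋃ L, S4 L).ncard := by
    refine (Set.ncard_le_ncard hsub (((hS1fin.union hS2fin).union hS3fin).union hS4fin)).trans ?_
    refine (Set.ncard_union_le _ _).trans ?_
    gcongr
    refine (Set.ncard_union_le _ _).trans ?_
    gcongr
    exact Set.ncard_union_le _ _
  have hM4 : ∀ L, (S4 L).ncard ≤ M := by
    intro L
    by_cases hL : L = ⊤
    · have : S4 L = ∅ := by
        ext t; simp [S4, hL]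
      rw [this]; simp
    · apply Nat.le_sqrt'.mpr
      have h1 := hLSM W ds K L (C5 * Nat.card L ^ dimW W ds.length) (fun g =>
        hC5 K hW hcr (HL L g) (Nat.card L) (Nat.card_pos) (neg_one_mem_HL L g) (hROL K L g))
      have h2 := one_subfield he Nat.card_pos (hsq K L hL) h1
      refine le_trans (Nat.pow_le_pow_left ?_ 2) h2
      exact Set.ncard_le_ncard (fun t ht => ht.2) (hfin.subset (fun t ht => ht.1))
  have hX4 : (⋃ L, S4 L).ncard ≤ Nat.card (Subfield K) * M := by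
    refine (Set.ncard_iUnion_le_of_fintype S4).trans ?_
    refine (Finset.sum_le_card_nsmul _ _ M (fun L _ => hM4 L)).trans ?_
    rw [smul_eq_mul, Finset.card_univ, Nat.card_eq_fintype_card]
  exact numeric (by omega) he hb hn (hC1 K hq hliv (cl_of_crit hW hcr))
    (hRPB W ds K _ (hC2 K hW hcr)) (hRPN W ds K _ (hC3 K)) (hC4 K) hX4 (Nat.sqrt_le' _) (hC6 K) hX

end Pool.FG.helper28
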